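import Pool.Agent.Helper82.FU.MI

/-!
Project FU (MP_d97caa_an): formal consequences of the axioms.
-/

open scoped ZeroAtInfty BoundedContinuousFunction
open TopologicalSpace

namespace Pool.Agent.Helper82.FU

open Pool.Agent.Helper39.CarDefs Pool.Agent.Helper93.FU

variable {𝒩 : Cls} {T : Biv}

section

variable {A A' A'' B B' B'' : Type} [NonUnitalCStarAlgebra A] [NonUnitalCStarAlgebra A']
  [NonUnitalCStarAlgebra A''] [NonUnitalCStarAlgebra B] [NonUnitalCStarAlgebra B']
  [NonUnitalCStarAlgebra B'']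

theorem pull_id (hT : IsBiv 𝒩 T) (hA : 𝒩 A) (i : ZMod 2) (f : Hom A A) (hf : ∀ a, f a = a)
    (z : T.G i A B) : T.pull i B f z = z :=
  (hT.functorial.1 i A B hA).1 f hf z

theorem push_id (hT : IsBiv 𝒩 T) (hA : 𝒩 A) (i : ZMod 2) (g : Hom B B) (hg : ∀ b, g b = b)
    (z : T.G i A B) : T.push i A g z = z :=
  (hT.functorial.1 i A B hA).2 g hg z

theorem pull_comp (hT : IsBiv 𝒩 T) (hA : 𝒩 A) (hA' : 𝒩 A') (hA'' : 𝒩 A'') (i : ZMod 2)
    (f : Hom A A') (g : Hom A' A'') (h : Hom A A'') (hh : ∀ a, h a = g (f a))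
    (z : T.G i A'' B) : T.pull i B f (T.pull i B g z) = T.pull i B h z :=
  (hT.functorial.2.1 i A A' A'' B hA hA' hA'' f g h hh z).symm

theorem push_comp (hT : IsBiv 𝒩 T) (hA : 𝒩 A) (i : ZMod 2)
    (f : Hom B B') (g : Hom B' B'') (h : Hom B B'') (hh : ∀ a, h a = g (f a))
    (z : T.G i A B) : T.push i A g (T.push i A f z) = T.push i A h z :=
  (hT.functorial.2.2.1 i A B B' B'' hA f g h hh z).symm

theorem pull_push (hT : IsBiv 𝒩 T) (hA : 𝒩 A) (hA' : 𝒩 A') (i : ZMod 2)
    (f : Hom A A') (g : Hom B B') (z : T.G i A' B) :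
    T.pull i B' f (T.push i A' g z) = T.push i A g (T.pull i B f z) :=
  hT.functorial.2.2.2 i A A' B B' hA hA' f g z

end

/-- identity -/
def idH (A : Type) [NonUnitalCStarAlgebra A] : Hom A A := NonUnitalStarAlgHom.id ℂ A

theorem idH_apply {A : Type} [NonUnitalCStarAlgebra A] (a : A) : idH A a = a := rfl

theorem isExt_subsingleton (Z : Type) [NonUnitalCStarAlgebra Z] [Subsingleton Z] :
    IsExtension (idH Z) (idH Z) :=
  ⟨fun _ _ h => h, fun a => ⟨a, rfl⟩, fun a => ⟨fun _ => ⟨a, rfl⟩, fun _ => Subsingleton.elim _ _⟩⟩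

theorem zeroA (hT : IsBiv 𝒩 T) {Z B : Type} [NonUnitalCStarAlgebra Z] [Subsingleton Z]
    [NonUnitalCStarAlgebra B] (hZ : 𝒩 Z) (i : ZMod 2) (z : T.G i Z B) : z = 0 := by
  have h := (hT.sixA i Z Z Z B hZ (idH Z) (idH Z) (isExt_subsingleton Z)).1 z
  have h2 := h.2 ⟨z, pull_id hT hZ i (idH Z) idH_apply z⟩
  rwa [pull_id hT hZ i (idH Z) idH_apply z] at h2

theorem zeroB (hT : IsBiv 𝒩 T) {A Z : Type} [NonUnitalCStarAlgebra Z] [Subsingleton Z]
    [NonUnitalCStarAlgebra A] (hA : 𝒩 A) (i : ZMod 2) (z : T.G i A Z) : z = 0 := by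
  have h := (hT.sixB i A Z Z Z hA (idH Z) (idH Z) (isExt_subsingleton Z)).1 z
  have h2 := h.2 ⟨z, push_id hT hA i (idH Z) idH_apply z⟩
  rwa [push_id hT hA i (idH Z) idH_apply z] at h2

/-! ### The zero subalgebra -/

section Bot

variable (A : Type) [NonUnitalCStarAlgebra A]

/-- the zero subalgebra -/
def Bot : NonUnitalStarSubalgebra ℂ A where
  carrier := {0}
  add_mem' := by
    rintro a b ha hb
    rw [Set.mem_singleton_iff] at *
    rw [ha, hb, add_zero]
  zero_mem' := rfl
  mul_mem' := by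
    rintro a b ha hb
    rw [Set.mem_singleton_iff] at *
    rw [ha, hb, mul_zero]
  smul_mem' := by
    rintro r a ha
    rw [Set.mem_singleton_iff] at *
    rw [ha, smul_zero]
  star_mem' := by
    rintro a ha
    rw [Set.mem_singleton_iff] at *
    rw [ha, star_zero]

instance : IsClosed ((Bot A : NonUnitalStarSubalgebra ℂ A) : Set A) := isClosed_singleton

instance : Subsingleton (Bot A) :=
  ⟨fun a b => Subtype.ext ((Set.mem_singleton_iff.1 a.2).trans (Set.mem_singleton_iff.1 b.2).symm)⟩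

/-- inclusion of the zero subalgebra -/
def botIncl : Hom (Bot A) A where
  toFun a := a
  map_smul' _ _ := rfl
  map_zero' := rfl
  map_add' _ _ := rfl
  map_mul' _ _ := rfl
  map_star' _ := rfl

/-- the zero map to the zero subalgebra -/
def botProj (A' : Type) [NonUnitalCStarAlgebra A'] : Hom A' (Bot A) where
  toFun _ := 0
  map_smul' _ _ := Subsingleton.elim _ _
  map_zero' := rfl
  map_add' _ _ := Subsingleton.elim _ _
  map_mul' _ _ := Subsingleton.elim _ _
  map_star' _ := Subsingleton.elim _ _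

theorem isExt_bot : IsExtension (botIncl A) (idH A) := by
  refine ⟨fun a b _ => Subsingleton.elim _ _, fun a => ⟨a, rfl⟩, fun a => ⟨fun h => ⟨0, ?_⟩, ?_⟩⟩
  · rw [map_zero]; exact h.symm
  · rintro ⟨b, rfl⟩
    rw [Subsingleton.elim b 0, map_zero, map_zero]

end Bot

section

variable {A A' B B' : Type} [NonUnitalCStarAlgebra A] [NonUnitalCStarAlgebra A']
  [NonUnitalCStarAlgebra B] [NonUnitalCStarAlgebra B']

theorem pull_zero (hT : IsBiv 𝒩 T) (hA : 𝒩 A) (hA' : 𝒩 A') (i : ZMod 2) (f : Hom A A')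
    (hf : ∀ a, f a = 0) (z : T.G i A' B) : T.pull i B f z = 0 := by
  have hZ : 𝒩 (Bot A') := hT.cls.ideal _ _ _ _ _ (isExt_bot A') hA'
  rw [← pull_comp hT hA hZ hA' i (botProj A' A) (botIncl A') f (fun a => by
    rw [hf]; rfl) z, zeroA hT hZ i (T.pull i B (botIncl A') z), map_zero]

theorem push_zero (hT : IsBiv 𝒩 T) (hA : 𝒩 A) (i : ZMod 2) (f : Hom B B')
    (hf : ∀ a, f a = 0) (z : T.G i A B) : T.push i A f z = 0 := by
  rw [← push_comp hT hA i (botProj B' B) (botIncl B') f (fun a => by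
    rw [hf]; rfl) z, zeroB hT hA i (T.push i A (botProj B' B) z), map_zero]

end

/-! ### Small classes -/

/-- `O(F, ε)` -/
def Small {A : Type} [NonUnitalCStarAlgebra A] {i : ZMod 2} {Q : Type} [NonUnitalCStarAlgebra Q]
    (r : ∀ (B : Type) [NonUnitalCStarAlgebra B], Hom Q B → T.G i A B) (B : Type)
    [NonUnitalCStarAlgebra B] (F : Finset Q) (ε : ℝ) (z : T.G i A B) : Prop :=
  ∃ g : Hom Q B, r B g = z ∧ ∀ x ∈ F, ‖g x‖ < ε

section

variable {A B : Type} [NonUnitalCStarAlgebra A] [NonUnitalCStarAlgebra B]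
  {i : ZMod 2} {Q : Type} [NonUnitalCStarAlgebra Q]

/-- a class in `G(A, l^∞ B)` whose coordinates agree with those of `w` -/
theorem prod_ext (hT : IsBiv 𝒩 T) (hA : 𝒩 A) (hB : Room B) {z w : T.G i A (ℕ →ᵇ B)}
    (h : ∀ n, T.push i A (evB B n) z = T.push i A (evB B n) w) : z = w :=
  sub_eq_zero.1 (hT.prodB i A B hA hB (z - w) fun n => by rw [map_sub, h, sub_self])

theorem small_add (hT : IsBiv 𝒩 T) (hA : 𝒩 A) (hB : Room B)
    (r : ∀ (B : Type) [NonUnitalCStarAlgebra B], Hom Q B → T.G i A B)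
    (hr : ∀ (B B' : Type) [NonUnitalCStarAlgebra B] [NonUnitalCStarAlgebra B'] (g : Hom B B')
      (f : Hom Q B) (h : Hom Q B'), IsCompHom f g h → T.push i A g (r B f) = r B' h)
    (F : Finset Q) {ε : ℝ} {x y : T.G i A B} (hx : Small r B F ε x)
    (hy : Small r B F ε y) : Small r B F ε (x + y) := by
  obtain ⟨t₀, t₁, ht⟩ := hB
  obtain ⟨g, rfl, hg⟩ := hx
  obtain ⟨g', rfl, hg'⟩ := hy
  let f : ℕ → Hom Q B := fun n => if n = 0 then g else g'
  let K := r _ (fam f)
  have hK : ∀ n, T.push i A (evB B n) K = r B (f n) := fun n => hr _ _ _ _ _ fun a => rfl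
  let h : Hom Q B := NonUnitalStarAlgHom.comp (sumHom ht) (fam f)
  have e1 : T.push i A (sumHom ht) K = r B h := hr _ _ _ _ _ fun a => rfl
  -- only the first two coordinates count
  let K2 := T.push i A (inj B 0) (r B g) + T.push i A (inj B 1) (r B g')
  have e2 : T.push i A (trunc B 2) K = K2 := by
    refine prod_ext hT hA ⟨t₀, t₁, ht⟩ fun n => ?_
    have a1 : T.push i A (evB B n) (T.push i A (trunc B 2) K) =
        if n = 0 then r B g else if n = 1 then r B g' else 0 := by
      by_cases h2 : n < 2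
      · rw [push_comp hT hA i (trunc B 2) (evB B n) (evB B n) (fun a => by
          change a n = if n < 2 then a n else 0
          rw [if_pos h2]), hK]
        have : n = 0 ∨ n = 1 := by omega
        rcases this with rfl | rfl
        · rfl
        · rfl
      · rw [push_comp hT hA i (trunc B 2) (evB B n) 0 (fun a => by
          change 0 = if n < 2 then a n else 0
          rw [if_neg h2]), push_zero hT hA i _ (fun a => rfl), if_neg (by omega),
          if_neg (by omega)]
    have a2 : ∀ (m : ℕ) (w : T.G i A B), T.push i A (evB B n) (T.push i A (inj B m) w) =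
        if n = m then w else 0 := by
      intro m w
      by_cases h2 : n = m
      · rw [push_comp hT hA i (inj B m) (evB B n) (idH B) (fun a => by
          change a = if n = m then a else 0
          rw [if_pos h2]), push_id hT hA i _ idH_apply, if_pos h2]
      · rw [push_comp hT hA i (inj B m) (evB B n) 0 (fun a => by
          change 0 = if n = m then a else 0
          rw [if_neg h2]), push_zero hT hA i _ (fun a => rfl), if_neg h2]
    rw [a1, map_add, a2, a2]
    by_cases h0 : n = 0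
    · subst h0; simp
    · by_cases h1 : n = 1
      · subst h1; simp
      · simp [h0, h1]
  have e3 : T.push i A (sumHom ht) (T.push i A (trunc B 2) K) = r B h := by
    rw [push_comp hT hA i (trunc B 2) (sumHom ht) (sumHom ht) (fun a => rfl), e1]
  have e4 : T.push i A (sumHom ht) K2 = r B g + r B g' := by
    rw [map_add, push_comp hT hA i (inj B 0) (sumHom ht) (ad t₀) (fun a => by
        rw [sumHom_apply, inj_apply, inj_apply, if_pos rfl, if_neg (by omega), map_zero,
          add_zero]), push_comp hT hA i (inj B 1) (sumHom ht) (ad t₁) (fun a => by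
        rw [sumHom_apply, inj_apply, inj_apply, if_pos rfl, if_neg (by omega), map_zero,
          zero_add]), hT.innB i A B hA t₀ _ (isAd t₀), hT.innB i A B hA t₁ _ (isAd t₁)]
  refine ⟨h, ?_, fun x hx => ?_⟩
  · rw [← e3, e2, e4]
  · have h1 : ‖h x‖ ≤ ‖trunc B 2 (fam f x)‖ :=
      NonUnitalStarAlgHom.norm_apply_le (sumHom ht) (trunc B 2 (fam f x))
    refine h1.trans_lt (lt_of_le_of_lt (b := max ‖g x‖ ‖g' x‖) ?_ (max_lt (hg x hx) (hg' x hx)))
    refine (BoundedContinuousFunction.norm_le (le_max_of_le_left (norm_nonneg _))).2 fun n => ?_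
    rw [trunc_apply]
    split_ifs with h2
    · have : n = 0 ∨ n = 1 := by omega
      rcases this with rfl | rfl
      · exact le_max_left _ _
      · exact le_max_right _ _
    · rw [norm_zero]; exact le_max_of_le_left (norm_nonneg _)

end

end Pool.Agent.Helper82.FU
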