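import Pool.Agent.Helper82.FU.Add

/-!
Project FU (MP_d97caa_an): central projections of the multiplier algebra.
-/

open scoped ZeroAtInfty BoundedContinuousFunction Topology
open TopologicalSpace

namespace Pool.Agent.Helper82.FU

open Pool.Agent.Helper39.CarDefs Pool.Agent.Helper93.FU

/-- a central projection of the multiplier algebra -/
structure CP (A : Type) [NonUnitalCStarAlgebra A] where
  e : A →ₗ[ℂ] A
  idem : ∀ a, e (e a) = e a
  mul_left : ∀ a b, e (a * b) = e a * b
  mul_right : ∀ a b, e (a * b) = a * e b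
  star_e : ∀ a, e (star a) = star (e a)

namespace CP

variable {A : Type} [NonUnitalCStarAlgebra A]

/-- the complement -/
def compl (c : CP A) : CP A where
  e := LinearMap.id - c.e
  idem a := by
    change (a - c.e a) - c.e (a - c.e a) = a - c.e a
    rw [map_sub, c.idem, sub_self, sub_zero]
  mul_left a b := by
    change a * b - c.e (a * b) = (a - c.e a) * b
    rw [c.mul_left, sub_mul]
  mul_right a b := by
    change a * b - c.e (a * b) = a * (b - c.e b)
    rw [c.mul_right, mul_sub]
  star_e a := by
    change star a - c.e (star a) = star (a - c.e a)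
    rw [c.star_e, star_sub]

theorem compl_e (c : CP A) (a : A) : c.compl.e a = a - c.e a := rfl

/-- multiplication by the projection as a *-homomorphism -/
def hom (c : CP A) : Hom A A where
  toFun a := c.e a
  map_smul' r a := map_smul c.e r a
  map_zero' := map_zero c.e
  map_add' a b := map_add c.e a b
  map_mul' a b := by
    change c.e (a * b) = c.e a * c.e b
    rw [← c.idem (a * b), c.mul_left, c.mul_right]
  map_star' a := c.star_e a

theorem hom_apply (c : CP A) (a : A) : c.hom a = c.e a := rfl

theorem norm_le (c : CP A) (a : A) : ‖c.e a‖ ≤ ‖a‖ := NonUnitalStarAlgHom.norm_apply_le c.hom a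

/-- the ideal -/
def I (c : CP A) : NonUnitalStarSubalgebra ℂ A where
  carrier := {a | c.e a = a}
  add_mem' := by
    intro a b (ha : c.e a = a) (hb : c.e b = b)
    change c.e (a + b) = a + b
    rw [map_add, ha, hb]
  zero_mem' := map_zero c.e
  mul_mem' := by
    intro a b (ha : c.e a = a) (hb : c.e b = b)
    change c.e (a * b) = a * b
    rw [c.mul_left, ha]
  smul_mem' := by
    intro r a (ha : c.e a = a)
    change c.e (r • a) = r • a
    rw [map_smul, ha]
  star_mem' := by
    intro a (ha : c.e a = a)
    change c.e (star a) = star a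
    rw [c.star_e, ha]

theorem mem_I (c : CP A) (a : A) : a ∈ c.I ↔ c.e a = a := Iff.rfl

theorem continuous_e (c : CP A) : Continuous c.e := by
  have : LipschitzWith 1 c.e := LipschitzWith.of_dist_le_mul fun a b => by
    rw [dist_eq_norm, dist_eq_norm, ← map_sub, NNReal.coe_one, one_mul]
    exact c.norm_le _
  exact this.continuous

instance (c : CP A) : IsClosed (c.I : Set A) := isClosed_eq c.continuous_e continuous_id

/-- inclusion of the ideal -/
def inc (c : CP A) : Hom c.I A where
  toFun a := a
  map_smul' _ _ := rfl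
  map_zero' := rfl
  map_add' _ _ := rfl
  map_mul' _ _ := rfl
  map_star' _ := rfl

theorem inc_apply (c : CP A) (a : c.I) : c.inc a = (a : A) := rfl

/-- projection to the ideal -/
def proj (c : CP A) : Hom A c.I where
  toFun a := ⟨c.e a, c.idem a⟩
  map_smul' r a := Subtype.ext (map_smul c.e r a)
  map_zero' := Subtype.ext (map_zero c.e)
  map_add' a b := Subtype.ext (map_add c.e a b)
  map_mul' a b := Subtype.ext (c.hom.map_mul' a b)
  map_star' a := Subtype.ext (c.star_e a)

theorem proj_apply (c : CP A) (a : A) : (c.proj a : A) = c.e a := rfl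

theorem isExt (c : CP A) : IsExtension c.compl.inc c.proj := by
  refine ⟨fun a b h => Subtype.ext h, fun a => ⟨a, Subtype.ext a.2⟩, fun a => ?_⟩
  constructor
  · intro h
    have h2 : c.e a = 0 := congrArg Subtype.val h
    exact ⟨⟨a, by change a - c.e a = a; rw [h2, sub_zero]⟩, rfl⟩
  · rintro ⟨b, rfl⟩
    have h2 : (b : A) - c.e b = b := b.2
    refine Subtype.ext ?_
    change c.e b = 0
    exact sub_eq_self.1 h2

theorem isExt' (c : CP A) : IsExtension c.inc c.compl.proj := by
  refine ⟨fun a b h => Subtype.ext h, fun a => ⟨a, Subtype.ext a.2⟩, fun a => ?_⟩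
  constructor
  · intro h
    have h2 : a - c.e a = 0 := congrArg Subtype.val h
    exact ⟨⟨a, (sub_eq_zero.1 h2).symm⟩, rfl⟩
  · rintro ⟨b, rfl⟩
    refine Subtype.ext ?_
    change (b : A) - c.e b = 0
    rw [show c.e (b : A) = b from b.2, sub_self]

variable {𝒩 : Cls} {T : Biv}

theorem mem_ideal (hT : IsBiv 𝒩 T) (hA : 𝒩 A) (c : CP A) : 𝒩 c.I :=
  hT.cls.ideal _ _ _ _ _ c.isExt' hA

/-- decomposition of a class by a central projection -/
theorem dec (hT : IsBiv 𝒩 T) (hA : 𝒩 A) (c : CP A) {B : Type} [NonUnitalCStarAlgebra B]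
    (i : ZMod 2) (z : T.G i A B) :
    T.pull i B c.hom z + T.pull i B c.compl.hom z = z := by
  have hI : 𝒩 c.I := c.mem_ideal hT hA
  have hI' : 𝒩 c.compl.I := c.compl.mem_ideal hT hA
  set w := z - T.pull i B c.hom z - T.pull i B c.compl.hom z with hw
  have e1 : ∀ z : T.G i A B, T.pull i B c.compl.inc (T.pull i B c.hom z) = 0 := fun z => by
    rw [pull_comp hT hI' hA hA i c.compl.inc c.hom 0 (fun a => by
      rw [hom_apply, inc_apply]
      have h2 : (a : A) - c.e a = a := a.2
      exact (sub_eq_self.1 h2).symm), pull_zero hT hI' hA i 0 (fun _ => rfl)]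
  have e2 : T.pull i B c.compl.inc (T.pull i B c.compl.hom z) = T.pull i B c.compl.inc z := by
    rw [pull_comp hT hI' hA hA i c.compl.inc c.compl.hom c.compl.inc (fun a => by
      rw [hom_apply, inc_apply]
      exact a.2.symm)]
  have e3 : T.pull i B c.inc (T.pull i B c.compl.hom z) = 0 := by
    rw [pull_comp hT hI hA hA i c.inc c.compl.hom 0 (fun a => by
      rw [hom_apply, inc_apply]
      change 0 = (a : A) - c.e a
      rw [show c.e (a : A) = a from a.2, sub_self]), pull_zero hT hI hA i 0 (fun _ => rfl)]
  have e4 : T.pull i B c.inc (T.pull i B c.hom z) = T.pull i B c.inc z := by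
    rw [pull_comp hT hI hA hA i c.inc c.hom c.inc (fun a => by
      rw [hom_apply, inc_apply]
      exact a.2.symm)]
  have h1 : T.pull i B c.compl.inc w = 0 := by
    rw [hw, map_sub, map_sub, e1, e2, sub_zero, sub_self]
  have h2 : T.pull i B c.inc w = 0 := by
    rw [hw, map_sub, map_sub, e3, e4, sub_zero, sub_self]
  obtain ⟨v, hv⟩ := ((hT.sixA i _ _ _ B hA c.compl.inc c.proj c.isExt).1 w).1 h1
  have h3 : v = 0 := by
    rw [← hv, pull_comp hT hI hA hI i c.inc c.proj (idH _) (fun a => by
      refine Subtype.ext ?_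
      rw [proj_apply, inc_apply]
      exact a.2.symm), pull_id hT hI i _ idH_apply] at h2
    exact h2
  rw [h3, map_zero] at hv
  have h4 : z - T.pull i B c.hom z - T.pull i B c.compl.hom z = 0 := by rw [← hw, ← hv]
  rw [sub_sub, sub_eq_zero] at h4
  exact h4.symm

end CP

end Pool.Agent.Helper82.FU
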