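import Pool.Agent.Helper82.FU.Core
import Mathlib.Topology.MetricSpace.PiNat

/-!
Project FU (MP_d97caa_an): `C(X)`-algebras.
-/

open scoped ZeroAtInfty BoundedContinuousFunction Topology
open TopologicalSpace Filter

namespace Pool.Agent.Helper82.FU

open Pool.Agent.Helper39.CarDefs Pool.Agent.Helper93.FU Pool.Agent.Helper39.FU

section CX

variable {X A : Type} [TopologicalSpace X] [NonUnitalCStarAlgebra A] (c : CXAlg X A)

theorem act_mul (f g : C(X, ℂ)) (a : A) : c.act (f * g) a = c.act f (c.act g a) := by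
  rw [map_mul]; rfl

theorem act_one (a : A) : c.act 1 a = a := by
  rw [map_one]; rfl

theorem act_add (f g : C(X, ℂ)) (a : A) : c.act (f + g) a = c.act f a + c.act g a := by
  rw [map_add]; rfl

theorem act_sub (f g : C(X, ℂ)) (a : A) : c.act (f - g) a = c.act f a - c.act g a := by
  rw [map_sub]; rfl

theorem act_smul (r : ℂ) (f : C(X, ℂ)) (a : A) : c.act (r • f) a = r • c.act f a := by
  rw [map_smul]; rfl

theorem act_sq (f : C(X, ℂ)) (a : A) :
    star (c.act f a) * c.act f a = c.act (star f * f) (star a * a) := by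
  rw [c.star_act, ← c.mul_left, ← c.mul_right, ← act_mul]

/-- the action is contractive -/
theorem act_norm [CompactSpace X] (f : C(X, ℂ)) (a : A) : ‖c.act f a‖ ≤ ‖f‖ * ‖a‖ := by
  letI := CStarAlgebra.spectralOrder A
  letI := CStarAlgebra.spectralOrderedRing A
  let g : C(X, ℂ) := ⟨fun x => ((Real.sqrt (‖f‖ ^ 2 - ‖f x‖ ^ 2) : ℝ) : ℂ), by fun_prop⟩
  have hg : star g * g + star f * f = ((‖f‖ ^ 2 : ℝ) : ℂ) • (1 : C(X, ℂ)) := by
    ext x
    change star ((Real.sqrt (‖f‖ ^ 2 - ‖f x‖ ^ 2) : ℝ) : ℂ) *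
      ((Real.sqrt (‖f‖ ^ 2 - ‖f x‖ ^ 2) : ℝ) : ℂ) + star (f x) * f x =
      ((‖f‖ ^ 2 : ℝ) : ℂ) * 1
    have h0 : 0 ≤ ‖f‖ ^ 2 - ‖f x‖ ^ 2 :=
      sub_nonneg.2 (pow_le_pow_left₀ (norm_nonneg _) (f.norm_coe_le_norm x) 2)
    have h1 : star ((Real.sqrt (‖f‖ ^ 2 - ‖f x‖ ^ 2) : ℝ) : ℂ) *
        ((Real.sqrt (‖f‖ ^ 2 - ‖f x‖ ^ 2) : ℝ) : ℂ) = ((‖f‖ ^ 2 - ‖f x‖ ^ 2 : ℝ) : ℂ) := by
      rw [Complex.star_def, Complex.conj_ofReal, ← Complex.ofReal_mul, Real.mul_self_sqrt h0]
    have h2 : star (f x) * f x = ((‖f x‖ ^ 2 : ℝ) : ℂ) := by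
      rw [Complex.star_def, ← Complex.normSq_eq_conj_mul_self, Complex.normSq_eq_norm_sq]
    rw [h1, h2, ← Complex.ofReal_add, sub_add_cancel, mul_one]
  have h1 : star (c.act f a) * c.act f a ≤ ((‖f‖ ^ 2 : ℝ) : ℂ) • (star a * a) := by
    have h2 : ((‖f‖ ^ 2 : ℝ) : ℂ) • (star a * a) =
        star (c.act g a) * c.act g a + star (c.act f a) * c.act f a := by
      rw [act_sq, act_sq, ← act_add, hg, act_smul, act_one]
    rw [h2]
    exact le_add_of_nonneg_left (star_mul_self_nonneg _)
  have h3 := CStarAlgebra.norm_le_norm_of_nonneg_of_le (star_mul_self_nonneg (c.act f a)) h1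
  rw [norm_smul, CStarRing.norm_star_mul_self, CStarRing.norm_star_mul_self] at h3
  have h4 : ‖((‖f‖ ^ 2 : ℝ) : ℂ)‖ = ‖f‖ ^ 2 := by
    rw [Complex.norm_real, Real.norm_of_nonneg (by positivity)]
  rw [h4] at h3
  nlinarith [norm_nonneg (c.act f a), mul_nonneg (norm_nonneg f) (norm_nonneg a),
    abs_le_of_sq_le_sq' (by nlinarith : ‖c.act f a‖ ^ 2 ≤ (‖f‖ * ‖a‖) ^ 2)
      (mul_nonneg (norm_nonneg f) (norm_nonneg a))]

/-- the central projection of an idempotent function -/
noncomputable def ofIdem (f : C(X, ℂ)) (h1 : f * f = f) (h2 : star f = f) : CP A where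
  e := c.act f
  idem a := by rw [← act_mul, h1]
  mul_left := c.mul_left f
  mul_right := c.mul_right f
  star_e a := by rw [c.star_act, h2]

theorem ofIdem_e (f : C(X, ℂ)) (h1 : f * f = f) (h2 : star f = f) (a : A) :
    (ofIdem c f h1 h2).e a = c.act f a := rfl

theorem fib_one {F : Type} [NonUnitalCStarAlgebra F] {x : X} {π : Hom A F}
    (h : c.IsFibre x π) {f : C(X, ℂ)} (hf : f x = 1) (a : A) : π (c.act f a) = π a := by
  have h1 : c.act (1 - f) a ∈ c.ker {x} := by
    refine Submodule.le_topologicalClosure _ (Submodule.subset_span ⟨1 - f, a, ?_, rfl⟩)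
    intro y hy
    rw [Set.mem_singleton_iff.1 hy]
    change 1 - f x = 0
    rw [hf, sub_self]
  have h2 := (h.2 _).2 h1
  rw [act_sub, act_one, map_sub, sub_eq_zero] at h2
  exact h2.symm

end CX

/-! ### The Cantor space -/

section Cantor

theorem isClopen_cyl (b : ℕ → Bool) (n : ℕ) :
    IsClopen (PiNat.cylinder (E := fun _ => Bool) b n) := by
  rw [PiNat.cylinder_eq_pi]
  exact ⟨isClosed_set_pi (fun i _ => isClosed_discrete _),
    isOpen_set_pi (Finset.finite_toSet _) (fun _ _ => isOpen_discrete _)⟩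

open Classical in
/-- the characteristic function of a cylinder -/
noncomputable def chi (b : ℕ → Bool) (n : ℕ) : C(ℕ → Bool, ℂ) where
  toFun x := if x ∈ PiNat.cylinder (E := fun _ => Bool) b n then 1 else 0
  continuous_toFun := by
    refine continuous_if (fun a ha => ?_) continuousOn_const continuousOn_const
    have h := (isClopen_cyl b n).frontier_eq
    change a ∈ frontier (PiNat.cylinder (E := fun _ => Bool) b n) at ha
    rw [h] at ha
    exact ha.elim

open Classical in
theorem chi_apply (b : ℕ → Bool) (n : ℕ) (x : ℕ → Bool) :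
    chi b n x = if x ∈ PiNat.cylinder (E := fun _ => Bool) b n then 1 else 0 := rfl

theorem chi_mul (b : ℕ → Bool) (n : ℕ) : chi b n * chi b n = chi b n := by
  ext x
  change chi b n x * chi b n x = chi b n x
  rw [chi_apply]
  split_ifs <;> simp

theorem chi_star (b : ℕ → Bool) (n : ℕ) : star (chi b n) = chi b n := by
  ext x
  change star (chi b n x) = chi b n x
  rw [chi_apply]
  split_ifs <;> simp

theorem chi_self (b : ℕ → Bool) (n : ℕ) : chi b n b = 1 := by
  rw [chi_apply, if_pos (PiNat.self_mem_cylinder b n)]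

theorem chi_congr {b b' : ℕ → Bool} {n : ℕ} (h : ∀ k < n, b k = b' k) : chi b n = chi b' n := by
  have : PiNat.cylinder (E := fun _ => Bool) b n = PiNat.cylinder (E := fun _ => Bool) b' n :=
    PiNat.mem_cylinder_iff_eq.1 (PiNat.mem_cylinder_iff.2 h)
  ext x
  rw [chi_apply, chi_apply, this]

theorem chi_zero (b : ℕ → Bool) : chi b 0 = 1 := by
  ext x
  rw [chi_apply, if_pos (by rw [PiNat.cylinder_zero]; trivial)]
  rfl

theorem chi_split (b : ℕ → Bool) (n : ℕ) :
    chi b n = chi (Function.update b n false) (n + 1) + chi (Function.update b n true) (n + 1) := by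
  ext x
  change chi b n x = chi (Function.update b n false) (n + 1) x +
    chi (Function.update b n true) (n + 1) x
  rw [chi_apply, chi_apply, chi_apply]
  have h : ∀ v : Bool, x ∈ PiNat.cylinder (E := fun _ => Bool) (Function.update b n v) (n + 1) ↔
      x ∈ PiNat.cylinder (E := fun _ => Bool) b n ∧ x n = v := by
    intro v
    rw [PiNat.mem_cylinder_iff, PiNat.mem_cylinder_iff]
    constructor
    · intro h
      refine ⟨fun i hi => ?_, ?_⟩
      · have := h i (by omega)
        rwa [Function.update_of_ne (by omega)] at this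
      · have := h n (by omega)
        rwa [Function.update_self] at this
    · rintro ⟨h1, h2⟩ i hi
      by_cases hin : i = n
      · subst hin
        rw [Function.update_self, h2]
      · rw [Function.update_of_ne hin]
        exact h1 i (by omega)
  by_cases h1 : x ∈ PiNat.cylinder (E := fun _ => Bool) b n
  · cases h2 : x n
    · rw [if_pos h1, if_pos ((h false).2 ⟨h1, h2⟩), if_neg fun hh => by
        have := ((h true).1 hh).2
        rw [h2] at this
        exact Bool.false_ne_true this, add_zero]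
    · rw [if_pos h1, if_pos ((h true).2 ⟨h1, h2⟩), if_neg fun hh => by
        have := ((h false).1 hh).2
        rw [h2] at this
        exact Bool.false_ne_true this.symm, zero_add]
  · rw [if_neg h1, if_neg fun hh => h1 ((h false).1 hh).1, if_neg fun hh => h1 ((h true).1 hh).1,
      add_zero]

theorem chi_dec (b : ℕ → Bool) (n : ℕ) : chi b (n + 1) * chi b n = chi b (n + 1) := by
  ext x
  change chi b (n + 1) x * chi b n x = chi b (n + 1) x
  rw [chi_apply, chi_apply]
  by_cases h : x ∈ PiNat.cylinder (E := fun _ => Bool) b (n + 1)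
  · rw [if_pos h, if_pos (PiNat.cylinder_anti b (Nat.le_succ n) h), mul_one]
  · rw [if_neg h, zero_mul]

theorem chi_norm_tendsto (b : ℕ → Bool) (f : C(ℕ → Bool, ℂ)) (hf : f b = 0) :
    Tendsto (fun n => ‖chi b n * f‖) atTop (𝓝 0) := by
  rw [Metric.tendsto_atTop]
  intro ε hε
  have ho : IsOpen {x | ‖f x‖ < ε / 2} := isOpen_lt f.continuous.norm continuous_const
  have hb : b ∈ {x | ‖f x‖ < ε / 2} := by
    change ‖f b‖ < ε / 2
    rw [hf, norm_zero]
    positivity
  obtain ⟨U, ⟨y, m, rfl⟩, hbU, hU⟩ :=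
    (PiNat.isTopologicalBasis_cylinders (E := fun _ => Bool)).exists_subset_of_mem_open hb ho
  refine ⟨m, fun n hn => ?_⟩
  rw [Real.dist_0_eq_abs, abs_of_nonneg (norm_nonneg _)]
  refine lt_of_le_of_lt (b := ε / 2) ?_ (by linarith)
  rw [ContinuousMap.norm_le _ (by positivity)]
  intro x
  change ‖chi b n x * f x‖ ≤ ε / 2
  rw [chi_apply]
  by_cases hx : x ∈ PiNat.cylinder (E := fun _ => Bool) b n
  · rw [if_pos hx, one_mul]
    have h1 : x ∈ PiNat.cylinder (E := fun _ => Bool) b m := PiNat.cylinder_anti b hn hx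
    rw [← PiNat.mem_cylinder_iff_eq.1 hbU] at hU
    exact (hU h1).le
  · rw [if_neg hx, zero_mul, norm_zero]
    positivity

variable {A : Type} [NonUnitalCStarAlgebra A] (c : CXAlg (ℕ → Bool) A)

/-- the central projection of a cylinder -/
noncomputable def cyl (b : ℕ → Bool) (n : ℕ) : CP A :=
  ofIdem c (chi b n) (chi_mul b n) (chi_star b n)

theorem cyl_e (b : ℕ → Bool) (n : ℕ) (a : A) : (cyl c b n).e a = c.act (chi b n) a := rfl

theorem cyl_tendsto (b : ℕ → Bool) (a : A) (ha : a ∈ c.ker {b}) :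
    Tendsto (fun n => (cyl c b n).e a) atTop (𝓝 0) := by
  let K : Submodule ℂ A :=
    { carrier := {a | Tendsto (fun n => (cyl c b n).e a) atTop (𝓝 0)}
      add_mem' := by
        intro a b (ha : Tendsto _ _ _) (hb : Tendsto _ _ _)
        change Tendsto _ _ _
        simp only [map_add]
        simpa using ha.add hb
      zero_mem' := by
        change Tendsto _ _ _
        simp only [map_zero]
        exact tendsto_const_nhds
      smul_mem' := by
        intro r a (ha : Tendsto _ _ _)
        change Tendsto _ _ _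
        simp only [map_smul]
        simpa using ha.const_smul r }
  have hK : IsClosed (K : Set A) := by
    rw [← isSeqClosed_iff_isClosed]
    intro x y hx hxy
    change Tendsto (fun n => (cyl c b n).e y) atTop (𝓝 0)
    rw [Metric.tendsto_atTop]
    intro ε hε
    obtain ⟨m, hm⟩ := (Metric.tendsto_atTop.1 hxy (ε / 2) (by positivity))
    have hm := hm m le_rfl
    obtain ⟨N, hN⟩ := Metric.tendsto_atTop.1 (hx m) (ε / 2) (by positivity)
    refine ⟨N, fun n hn => ?_⟩
    have h1 := hN n hn
    rw [dist_zero_right] at h1 ⊢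
    have h2 : (cyl c b n).e y = (cyl c b n).e (x m) - (cyl c b n).e (x m - y) := by
      rw [map_sub, sub_sub_cancel]
    rw [h2]
    refine (norm_sub_le _ _).trans_lt ?_
    have h3 := (cyl c b n).norm_le (x m - y)
    rw [dist_eq_norm] at hm
    linarith
  have hle : c.ker {b} ≤ K := by
    refine Submodule.topologicalClosure_minimal _ (Submodule.span_le.2 ?_) hK
    rintro z ⟨f, a, hf, rfl⟩
    change Tendsto (fun n => (cyl c b n).e (c.act f a)) atTop (𝓝 0)
    rw [tendsto_zero_iff_norm_tendsto_zero]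
    have h1 := (chi_norm_tendsto b f (hf b rfl)).mul_const ‖a‖
    rw [zero_mul] at h1
    refine squeeze_zero (fun n => norm_nonneg _) (fun n => ?_) h1
    rw [cyl_e, ← act_mul]
    exact act_norm c _ a
  exact hle ha

end Cantor

end Pool.Agent.Helper82.FU
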