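import Pool.Agent.Helper82.FU.CP
import Pool.Agent.Helper39.FU.Seq

/-!
Project FU (MP_d97caa_an), step (1): a bounded sequence of classes supported in a decreasing
sequence of central projections comes from the algebra of null sequences, if the algebra at the
limit satisfies the UCT.
-/

open scoped ZeroAtInfty BoundedContinuousFunction Topology
open TopologicalSpace Filter

namespace Pool.Agent.Helper82.FU

open Pool.Agent.Helper39.CarDefs Pool.Agent.Helper93.FU Pool.Agent.Helper39.FU

variable {𝒩 : Cls} {T : Biv}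

/-- the kernel of a *-homomorphism -/
def kerSub {A F : Type} [NonUnitalCStarAlgebra A] [NonUnitalCStarAlgebra F] (π : Hom A F) :
    NonUnitalStarSubalgebra ℂ A where
  carrier := {a | π a = 0}
  add_mem' := by
    intro a b (ha : π a = 0) (hb : π b = 0)
    change π (a + b) = 0
    rw [map_add, ha, hb, add_zero]
  zero_mem' := map_zero π
  mul_mem' := by
    intro a b (ha : π a = 0) (hb : π b = 0)
    change π (a * b) = 0
    rw [map_mul, ha, zero_mul]
  smul_mem' := by
    intro r a (ha : π a = 0)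
    change π (r • a) = 0
    rw [map_smul, ha, smul_zero]
  star_mem' := by
    intro a (ha : π a = 0)
    change π (star a) = 0
    rw [map_star, ha, star_zero]

theorem hom_continuous {A F : Type} [NonUnitalCStarAlgebra A] [NonUnitalCStarAlgebra F]
    (π : Hom A F) : Continuous π := by
  have : LipschitzWith 1 π := LipschitzWith.of_dist_le_mul fun a b => by
    rw [dist_eq_norm, dist_eq_norm, ← map_sub, NNReal.coe_one, one_mul]
    exact NonUnitalStarAlgHom.norm_apply_le π _
  exact this.continuous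

instance {A F : Type} [NonUnitalCStarAlgebra A] [NonUnitalCStarAlgebra F] (π : Hom A F) :
    IsClosed (kerSub π : Set A) := isClosed_eq (hom_continuous π) continuous_const

/-- inclusion of the kernel -/
def kerInc {A F : Type} [NonUnitalCStarAlgebra A] [NonUnitalCStarAlgebra F] (π : Hom A F) :
    Hom (kerSub π) A where
  toFun a := a
  map_smul' _ _ := rfl
  map_zero' := rfl
  map_add' _ _ := rfl
  map_mul' _ _ := rfl
  map_star' _ := rfl

theorem kerInc_apply {A F : Type} [NonUnitalCStarAlgebra A] [NonUnitalCStarAlgebra F]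
    (π : Hom A F) (a : kerSub π) : kerInc π a = (a : A) := rfl

theorem isExt_ker {A F : Type} [NonUnitalCStarAlgebra A] [NonUnitalCStarAlgebra F] (π : Hom A F)
    (hπ : Function.Surjective π) : IsExtension (kerInc π) π :=
  ⟨fun _ _ h => Subtype.ext h, hπ, fun a => ⟨fun h => ⟨⟨a, h⟩, rfl⟩, by
    rintro ⟨b, rfl⟩
    exact b.2⟩⟩

/-- K-triviality of `l^∞(B)/c₀(B)` -/
theorem ktriv (hT : IsBiv 𝒩 T) {B Q : Type} [NonUnitalCStarAlgebra B] [NonUnitalCStarAlgebra Q]
    (hB : Room B) (hK : T.Zero ℂ B) (q : Hom (ℕ →ᵇ B) Q) (hq : IsExtension (incl B) q) :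
    T.Zero ℂ Q := by
  intro i z
  obtain ⟨-, d, hd1, hd2⟩ := hT.sixB i ℂ _ _ _ hT.cls.scalars (incl B) q hq
  have h1 : d z = 0 := hT.nullB (i + 1) B _ fun n => hK _ _
  obtain ⟨y, hy⟩ := (hd1 z).1 h1
  have h2 : y = 0 := hT.prodB i ℂ B hT.cls.scalars hB y fun n => hK _ _
  rw [← hy, h2, map_zero]

section Core

variable {A F : Type} [NonUnitalCStarAlgebra A] [NonUnitalCStarAlgebra F]

/-- inclusion `(1 - e_k) A → ker π` -/
def uk (π : Hom A F) (e : ℕ → CP A) (hone : ∀ n a, π ((e n).e a) = π a) (k : ℕ) :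
    Hom (e k).compl.I (kerSub π) where
  toFun a := ⟨a, by
    have h : (a : A) - (e k).e a = a := a.2
    change π a = 0
    rw [← h, map_sub, hone, sub_self]⟩
  map_smul' _ _ := rfl
  map_zero' := rfl
  map_add' _ _ := rfl
  map_mul' _ _ := rfl
  map_star' _ := rfl

/-- inclusion `(1 - e_k) A → (1 - e_{k+1}) A` -/
def jk (e : ℕ → CP A) (hdec : ∀ n a, (e (n + 1)).e ((e n).e a) = (e (n + 1)).e a) (k : ℕ) :
    Hom (e k).compl.I (e (k + 1)).compl.I where
  toFun a := ⟨a, by
    have h : (a : A) - (e k).e a = a := a.2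
    have h2 : (e k).e (a : A) = 0 := sub_eq_self.1 h
    change (a : A) - (e (k + 1)).e a = a
    rw [← hdec, h2, map_zero, sub_zero]⟩
  map_smul' _ _ := rfl
  map_zero' := rfl
  map_add' _ _ := rfl
  map_mul' _ _ := rfl
  map_star' _ := rfl

theorem dec_le (e : ℕ → CP A) (hdec : ∀ n a, (e (n + 1)).e ((e n).e a) = (e (n + 1)).e a)
    {k n : ℕ} (h : k ≤ n) {a : A} (ha : (e k).e a = 0) : (e n).e a = 0 := by
  induction n, h using Nat.le_induction with
  | base => exact ha
  | succ n _ ih => rw [← hdec, ih, map_zero]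

theorem core (hT : IsBiv 𝒩 T) (hA : 𝒩 A) {B : Type} [NonUnitalCStarAlgebra B] (hB : Room B)
    (hK : T.Zero ℂ B) (hF : T.Uct F) (π : Hom A F) (hπ : Function.Surjective π)
    (e : ℕ → CP A) (hdec : ∀ n a, (e (n + 1)).e ((e n).e a) = (e (n + 1)).e a)
    (hker : ∀ a, π a = 0 → Tendsto (fun n => (e n).e a) atTop (𝓝 0))
    (hone : ∀ n a, π ((e n).e a) = π a) (i : ZMod 2) (Z : T.G i A (ℕ →ᵇ B))
    (hZ : ∀ n, ∃ y, T.push i A (evB B n) Z = T.pull i B (e n).hom y) :
    ∃ w : T.G i A C₀(ℕ, B), T.push i A (incl B) w = Z := by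
  obtain ⟨Q, _, q, hq⟩ := exists_infty B
  have hRQ : Room Q := room_quot (room_bcf hB) q hq.2.1
  have hKQ : T.Zero ℂ Q := ktriv hT hB hK q hq
  have hJ : 𝒩 (kerSub π) := hT.cls.ideal _ _ _ _ _ (isExt_ker π hπ) hA
  have hD : ∀ k, 𝒩 (e k).compl.I := fun k => (e k).compl.mem_ideal hT hA
  refine ((hT.sixB i A _ _ _ hA (incl B) q hq).1 Z).1 ?_
  -- restriction to the kernel of `π`
  suffices h : T.pull i Q (kerInc π) (T.push i A q Z) = 0 by
    obtain ⟨x, hx⟩ := ((hT.sixA i _ _ _ Q hA _ _ (isExt_ker π hπ)).1 _).1 h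
    rw [← hx, hF Q hRQ hKQ i x, map_zero]
  -- restriction to `(1 - e_k) A`
  have key : ∀ k, T.pull i Q (uk π e hone k) (T.pull i Q (kerInc π) (T.push i A q Z)) = 0 := by
    intro k
    rw [pull_comp hT (hD k) hJ hA i (uk π e hone k) (kerInc π) (e k).compl.inc (fun a => rfl),
      pull_push hT (hD k) hA i]
    set Y := T.pull i (ℕ →ᵇ B) (e k).compl.inc Z with hY
    have h1 : ∀ n, k ≤ n → T.push i (e k).compl.I (evB B n) Y = 0 := by
      intro n hn
      obtain ⟨y, hy⟩ := hZ n
      rw [hY, ← pull_push hT (hD k) hA i, hy,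
        pull_comp hT (hD k) hA hA i (e k).compl.inc (e n).hom 0 (fun a => ?_),
        pull_zero hT (hD k) hA i 0 (fun _ => rfl)]
      have h : (a : A) - (e k).e a = a := a.2
      exact (dec_le e hdec hn (sub_eq_self.1 h)).symm
    have h2 : T.push i (e k).compl.I (trunc B k) Y = Y := by
      refine prod_ext hT (hD k) hB fun n => ?_
      by_cases hn : n < k
      · exact push_comp hT (hD k) i (trunc B k) (evB B n) (evB B n) (fun a => by
          change a n = if n < k then a n else 0
          rw [if_pos hn]) Y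
      · rw [push_comp hT (hD k) i (trunc B k) (evB B n) 0 (fun a => by
          change 0 = if n < k then a n else 0
          rw [if_neg hn]) Y, push_zero hT (hD k) i 0 (fun _ => rfl), h1 n (not_lt.1 hn)]
    rw [← h2, push_comp hT (hD k) i (trunc B k) q 0 (fun a => ?_) Y,
      push_zero hT (hD k) i 0 (fun _ => rfl)]
    refine ((infty_ker hq _).2 ?_).symm
    refine tendsto_const_nhds.congr' ?_
    filter_upwards [eventually_ge_atTop k] with n hn
    change 0 = ‖(if n < k then a n else 0 : B)‖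
    rw [if_neg (not_lt.2 hn), norm_zero]
  -- Milnor
  have hU : IsUnion (B := fun k => (e k).compl.I) (jk e hdec) (uk π e hone) := by
    refine ⟨fun k => ⟨fun a b h => Subtype.ext (congrArg (fun x : kerSub π => (x : A)) h),
      fun a => rfl⟩, ?_⟩
    rw [Metric.dense_iff]
    intro x r hr
    have h1 := hker x x.2
    obtain ⟨n, hn⟩ := (((tendsto_zero_iff_norm_tendsto_zero.1 h1)).eventually_lt_const hr).exists
    refine ⟨uk π e hone n ((e n).compl.proj x), ?_, Set.mem_iUnion.2 ⟨n, ⟨_, rfl⟩⟩⟩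
    rw [Metric.mem_ball, dist_eq_norm]
    change ‖((x : A) - (e n).e x) - x‖ < r
    rw [sub_sub_cancel_left, norm_neg]
    exact hn
  obtain ⟨-, d, hd1, hd2⟩ := hT.milnorA i (kerSub π) Q (fun k => (e k).compl.I) hJ hD
    (jk e hdec) (uk π e hone) hU
  obtain ⟨z, hz⟩ := (hd2 _).1 key
  rw [← hz]
  let ret : ∀ k, Hom (e (k + 1)).compl.I (e k).compl.I := fun k =>
    NonUnitalStarAlgHom.comp (e k).compl.proj (e (k + 1)).compl.inc
  let t : ∀ k, T.G (i + 1) (e k).compl.I Q := fun k =>
    Nat.rec (motive := fun k => T.G (i + 1) (e k).compl.I Q) 0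
      (fun k t => T.pull (i + 1) Q (ret k) (t - z k)) k
  refine (hd1 z).2 ⟨t, fun k => ?_⟩
  have ht : t (k + 1) = T.pull (i + 1) Q (ret k) (t k - z k) := rfl
  have h3 : T.pull (i + 1) Q (jk e hdec k) (t (k + 1)) = t k - z k := by
    rw [ht, pull_comp hT (hD k) (hD (k + 1)) (hD k) (i + 1) (jk e hdec k) (ret k) (idH _)
      (fun a => ?_), pull_id hT (hD k) (i + 1) _ idH_apply]
    exact Subtype.ext a.2.symm
  change z k = t k - T.pull (i + 1) Q (jk e hdec k) (t (k + 1))
  rw [h3, sub_sub_cancel]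

end Core

end Pool.Agent.Helper82.FU
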