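import Pool.Agent.Helper82.FU.Topo

/-!
Project FU (MP_d97caa_an): a sequence of cuts of a compact metrizable space.
-/

open scoped Topology
open TopologicalSpace Filter Set

namespace Pool.Agent.Helper82.FU

/-- If every point of `Y` has arbitrarily small open neighbourhoods `U` with `P (Y ∩ frontier U)`
then there is a sequence of such open sets which separates the points of `Y`. -/
theorem exists_cuts (X : Type) [TopologicalSpace X] [CompactSpace X] [T2Space X]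
    [SecondCountableTopology X] (P : Set X → Prop) (h0 : P ∅) (Y : Set X) (hY : IsClosed Y)
    (hloc : ∀ x ∈ Y, ∀ V ∈ 𝓝 x, ∃ U : Set X, IsOpen U ∧ x ∈ U ∧ U ⊆ V ∧ P (Y ∩ frontier U)) :
    ∃ U : ℕ → Set X, (∀ k, IsOpen (U k)) ∧ (∀ k, P (Y ∩ frontier (U k))) ∧
      ∀ x ∈ Y, ∀ y ∈ Y, x ≠ y → ∃ k, x ∈ U k ∧ y ∉ closure (U k) := by
  classical
  let _ := metrizableSpaceMetric X
  have h1 : ∀ n : ℕ, ∃ s : Set (Set X), s.Countable ∧
      (∀ U ∈ s, IsOpen U ∧ P (Y ∩ frontier U) ∧ ∀ a ∈ closure U, ∀ b ∈ closure U,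
        dist a b ≤ 2 / ((n : ℝ) + 1)) ∧ ∀ x ∈ Y, ∃ U ∈ s, x ∈ U := by
    intro n
    have hn : (0 : ℝ) < 1 / ((n : ℝ) + 1) := by positivity
    choose! U hU1 hU2 hU3 hU4 using fun (x : X) (hx : x ∈ Y) =>
      hloc x hx (Metric.ball x (1 / ((n : ℝ) + 1))) (Metric.ball_mem_nhds x hn)
    obtain ⟨t, hcov⟩ := hY.isCompact.elim_nhds_subcover' (fun x hx => U x)
      (fun x hx => (hU1 x hx).mem_nhds (hU2 x hx))
    refine ⟨(fun x : Y => U x.1) '' (t : Set Y), (t.finite_toSet.image _).countable, ?_, ?_⟩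
    · rintro _ ⟨x, -, rfl⟩
      refine ⟨hU1 x x.2, hU4 x x.2, fun a ha b hb => ?_⟩
      have hcl : closure (U x) ⊆ Metric.closedBall (x : X) (1 / ((n : ℝ) + 1)) :=
        (closure_mono (hU3 x x.2)).trans Metric.closure_ball_subset_closedBall
      have ha' : dist a x ≤ 1 / ((n : ℝ) + 1) := hcl ha
      have hb' : dist b x ≤ 1 / ((n : ℝ) + 1) := hcl hb
      have h2 : (2 : ℝ) / ((n : ℝ) + 1) = 1 / ((n : ℝ) + 1) + 1 / ((n : ℝ) + 1) := by ring
      rw [h2]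
      linarith [dist_triangle_right a b (x : X)]
    · intro x hx
      obtain ⟨y, hy, hxy⟩ := mem_iUnion₂.1 (hcov hx)
      exact ⟨U y, ⟨y, hy, rfl⟩, hxy⟩
  choose s hs1 hs2 hs3 using h1
  -- all cuts together
  let S : Set (Set X) := insert ∅ (⋃ n, s n)
  have hS : S.Countable := (countable_iUnion hs1).insert _
  have hSne : S.Nonempty := ⟨∅, mem_insert _ _⟩
  obtain ⟨u, hu⟩ := hS.exists_eq_range hSne
  have hS1 : ∀ U ∈ S, IsOpen U ∧ P (Y ∩ frontier U) := by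
    intro U hU
    rcases hU with rfl | hU
    · exact ⟨isOpen_empty, by rw [frontier_empty, inter_empty]; exact h0⟩
    · obtain ⟨n, hn⟩ := mem_iUnion.1 hU
      exact ⟨(hs2 n U hn).1, (hs2 n U hn).2.1⟩
  have hu' : ∀ k, u k ∈ S := fun k => by rw [hu]; exact ⟨k, rfl⟩
  refine ⟨u, fun k => (hS1 _ (hu' k)).1, fun k => (hS1 _ (hu' k)).2, fun x hx y hy hxy => ?_⟩
  have hd : 0 < dist x y := dist_pos.2 hxy
  obtain ⟨n, hn⟩ := exists_nat_gt (2 / dist x y)
  obtain ⟨U, hU, hxU⟩ := hs3 n x hx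
  have hUS : U ∈ S := Or.inr (mem_iUnion.2 ⟨n, hU⟩)
  rw [hu] at hUS
  obtain ⟨k, rfl⟩ := hUS
  refine ⟨k, hxU, fun hyU => ?_⟩
  have h2 := (hs2 n _ hU).2.2 x (subset_closure hxU) y hyU
  have h3 : 2 / ((n : ℝ) + 1) < dist x y := by
    rw [div_lt_iff₀ (by positivity)]
    rw [div_lt_iff₀ hd] at hn
    nlinarith
  linarith

end Pool.Agent.Helper82.FU
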