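import Pool.Agent.Helper51.FU.Rel
import Pool.Agent.Helper82.FU.Cuts

/-!
Project FU (MP_d97caa_an): the closed sets `S_k`, `S_∞` of a sequence of cuts.
-/

set_option autoImplicit false

open TopologicalSpace Set Filter Topology
open scoped ENNReal

namespace Pool.Agent.Helper82.FU

open Pool.Agent.Helper39.CarDefs Pool.Agent.Helper51.FU

section Geo

variable {X : Type} [TopologicalSpace X]

/-- truncation -/
def tau (k : ℕ) (ξ : ℕ → Bool) : ℕ → Bool := fun i => if i < k then ξ i else false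

theorem tau_lt {k i : ℕ} (h : i < k) (ξ : ℕ → Bool) : tau k ξ i = ξ i := if_pos h

theorem tau_ge {k i : ℕ} (h : k ≤ i) (ξ : ℕ → Bool) : tau k ξ i = false := if_neg (not_lt.2 h)

theorem tau_cont (k : ℕ) : Continuous (tau k) := by
  refine continuous_pi fun i => ?_
  by_cases h : i < k
  · simp only [tau, if_pos h]
    exact continuous_apply i
  · simp only [tau, if_neg h]
    exact continuous_const

theorem tau_tau (k : ℕ) (ξ : ℕ → Bool) : tau k (tau (k + 1) ξ) = tau k ξ := by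
  funext i
  by_cases h : i < k
  · rw [tau_lt h, tau_lt (by omega), tau_lt h]
  · rw [tau_ge (not_lt.1 h), tau_ge (not_lt.1 h)]

theorem tau_eq {k : ℕ} {ξ : ℕ → Bool} (h : ∀ i, k ≤ i → ξ i = false) : tau k ξ = ξ := by
  funext i
  by_cases hi : i < k
  · rw [tau_lt hi]
  · rw [tau_ge (not_lt.1 hi), h i (not_lt.1 hi)]

/-- the `i`-th condition -/
def Ok (U : ℕ → Set X) (ξ : ℕ → Bool) (x : X) (i : ℕ) : Prop :=
  (ξ i = false → x ∈ closure (U i)) ∧ (ξ i = true → x ∉ U i)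

theorem Ok_congr {U : ℕ → Set X} {ξ ξ' : ℕ → Bool} {x : X} {i : ℕ} (h : ξ i = ξ' i)
    (hO : Ok U ξ x i) : Ok U ξ' x i := by
  unfold Ok
  rw [← h]
  exact hO

theorem Ok_closed {U : ℕ → Set X} (hU : ∀ i, IsOpen (U i)) (i : ℕ) :
    IsClosed {z : (ℕ → Bool) × X | Ok U z.1 z.2 i} := by
  have h1 : Continuous fun z : (ℕ → Bool) × X => z.1 i := (continuous_apply i).comp continuous_fst
  have e : {z : (ℕ → Bool) × X | Ok U z.1 z.2 i} =
      ({z | z.1 i = true} ∪ {z | z.2 ∈ closure (U i)}) ∩ ({z | z.1 i = false} ∪ {z | z.2 ∈ (U i)ᶜ}) := by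
    ext z
    simp only [Ok, mem_setOf_eq, mem_inter_iff, mem_union, mem_compl_iff]
    cases z.1 i <;> simp
  rw [e]
  refine IsClosed.inter (IsClosed.union ?_ ?_) (IsClosed.union ?_ ?_)
  · exact isClosed_eq h1 continuous_const
  · exact isClosed_closure.preimage continuous_snd
  · exact isClosed_eq h1 continuous_const
  · exact (hU i).isClosed_compl.preimage continuous_snd

/-- the set `S_k` -/
def Sk (Z : Set X) (U : ℕ → Set X) (k : ℕ) : Set ((ℕ → Bool) × X) :=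
  {z | z.2 ∈ Z ∧ (∀ i < k, Ok U z.1 z.2 i) ∧ ∀ i, k ≤ i → z.1 i = false}

/-- the set `S_∞` -/
def Si (Z : Set X) (U : ℕ → Set X) : Set ((ℕ → Bool) × X) := {z | z.2 ∈ Z ∧ ∀ i, Ok U z.1 z.2 i}

variable {Z : Set X} {U : ℕ → Set X}

theorem Sk_closed (hZ : IsClosed Z) (hU : ∀ i, IsOpen (U i)) (k : ℕ) : IsClosed (Sk Z U k) := by
  have e : Sk Z U k = {z | z.2 ∈ Z} ∩ ((⋂ i, ⋂ _ : i < k, {z | Ok U z.1 z.2 i}) ∩
      ⋂ i, ⋂ _ : k ≤ i, {z | z.1 i = false}) := by
    ext z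
    simp only [Sk, mem_setOf_eq, mem_inter_iff, mem_iInter]
  rw [e]
  refine (hZ.preimage continuous_snd).inter (IsClosed.inter ?_ ?_)
  · exact isClosed_iInter fun i => isClosed_iInter fun _ => Ok_closed hU i
  · exact isClosed_iInter fun i => isClosed_iInter fun _ =>
      isClosed_eq ((continuous_apply i).comp continuous_fst) continuous_const

theorem Si_closed (hZ : IsClosed Z) (hU : ∀ i, IsOpen (U i)) : IsClosed (Si Z U) := by
  have e : Si Z U = {z | z.2 ∈ Z} ∩ ⋂ i, {z | Ok U z.1 z.2 i} := by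
    ext z
    simp only [Si, mem_setOf_eq, mem_inter_iff, mem_iInter]
  rw [e]
  exact (hZ.preimage continuous_snd).inter (isClosed_iInter fun i => Ok_closed hU i)

theorem Sk_step {k : ℕ} : ∀ z ∈ Sk Z U (k + 1), (tau k z.1, z.2) ∈ Sk Z U k := by
  rintro z ⟨h1, h2, h3⟩
  exact ⟨h1, fun i hi => Ok_congr (tau_lt hi z.1).symm (h2 i (by omega)), fun i hi => tau_ge hi z.1⟩

theorem Si_step {k : ℕ} : ∀ z ∈ Si Z U, (tau k z.1, z.2) ∈ Sk Z U k := by
  rintro z ⟨h1, h2⟩
  exact ⟨h1, fun i hi => Ok_congr (tau_lt hi z.1).symm (h2 i), fun i hi => tau_ge hi z.1⟩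

theorem Sk_lift {k : ℕ} {z : (ℕ → Bool) × X} (hz : z ∈ Sk Z U k) :
    ∃ ξ, (ξ, z.2) ∈ Si Z U ∧ tau k ξ = z.1 := by
  classical
  obtain ⟨h1, h2, h3⟩ := hz
  let ξ : ℕ → Bool := fun i => if i < k then z.1 i else if z.2 ∈ closure (U i) then false else true
  have hlt : ∀ i, i < k → ξ i = z.1 i := fun i hi => if_pos hi
  refine ⟨ξ, ⟨h1, fun i => ?_⟩, ?_⟩
  · by_cases hi : i < k
    · exact Ok_congr (hlt i hi).symm (h2 i hi)
    · by_cases hc : z.2 ∈ closure (U i)
      · have e : ξ i = false := by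
          change (if i < k then z.1 i else if z.2 ∈ closure (U i) then false else true) = false
          rw [if_neg hi, if_pos hc]
        exact ⟨fun _ => hc, fun (h : ξ i = true) => by rw [e] at h; exact absurd h (by decide)⟩
      · have e : ξ i = true := by
          change (if i < k then z.1 i else if z.2 ∈ closure (U i) then false else true) = true
          rw [if_neg hi, if_neg hc]
        exact ⟨fun (h : ξ i = false) => by rw [e] at h; exact absurd h (by decide),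
          fun _ h => hc (subset_closure h)⟩
  · funext i
    by_cases hi : i < k
    · rw [tau_lt hi, hlt i hi]
    · rw [tau_ge (not_lt.1 hi), h3 i (not_lt.1 hi)]

/-- the part of `S_k` over the frontier of `U k` -/
def Dk (Z : Set X) (U : ℕ → Set X) (k : ℕ) : Set ((ℕ → Bool) × X) :=
  {z | z ∈ Sk Z U k ∧ z.2 ∈ frontier (U k)}

/-- the part of `S_{k+1}` over the frontier of `U k` -/
def Dk' (Z : Set X) (U : ℕ → Set X) (k : ℕ) : Set ((ℕ → Bool) × X) :=
  {z | z ∈ Sk Z U (k + 1) ∧ z.2 ∈ frontier (U k)}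

theorem Dk_closed (hZ : IsClosed Z) (hU : ∀ i, IsOpen (U i)) (k : ℕ) : IsClosed (Dk Z U k) :=
  (Sk_closed hZ hU k).inter (isClosed_frontier.preimage continuous_snd)

theorem Dk'_closed (hZ : IsClosed Z) (hU : ∀ i, IsOpen (U i)) (k : ℕ) : IsClosed (Dk' Z U k) :=
  (Sk_closed hZ hU (k + 1)).inter (isClosed_frontier.preimage continuous_snd)

theorem Dk_le {k : ℕ} : Dk Z U k ⊆ Sk Z U k := fun _ h => h.1

theorem Dk'_le {k : ℕ} : Dk' Z U k ⊆ Sk Z U (k + 1) := fun _ h => h.1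

theorem rho_hD {k : ℕ} : ∀ z ∈ Sk Z U (k + 1), z ∈ Dk' Z U k → (tau k z.1, z.2) ∈ Dk Z U k :=
  fun z hz h => ⟨Sk_step z hz, h.2⟩

theorem rho_hD2 {k : ℕ} : ∀ z ∈ Sk Z U (k + 1), (tau k z.1, z.2) ∈ Dk Z U k → z ∈ Dk' Z U k :=
  fun _ hz h => ⟨hz, h.2⟩

theorem rho_hex {k : ℕ} : ∀ z ∈ Sk Z U k, z ∉ Dk Z U k →
    ∃ ξ, (ξ, z.2) ∈ Sk Z U (k + 1) ∧ tau k ξ = z.1 := by
  classical
  rintro z ⟨h1, h2, h3⟩ -
  by_cases hz : z.2 ∈ closure (U k)
  · refine ⟨z.1, ⟨h1, fun i hi => ?_, fun i hi => h3 i (by omega)⟩, tau_eq h3⟩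
    by_cases hik : i = k
    · subst hik
      exact ⟨fun _ => hz, fun h => by rw [h3 i le_rfl] at h; exact absurd h (by decide)⟩
    · exact h2 i (by omega)
  · refine ⟨Function.update z.1 k true, ⟨h1, fun i hi => ?_, fun i hi => ?_⟩, ?_⟩
    · by_cases hik : i = k
      · subst hik
        refine ⟨fun (h : Function.update z.1 i true i = false) => ?_,
          fun _ h => hz (subset_closure h)⟩
        rw [Function.update_self] at h
        exact absurd h (by decide)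
      · exact Ok_congr (Function.update_of_ne hik _ _).symm (h2 i (by omega))
    · change Function.update z.1 k true i = false
      rw [Function.update_of_ne (by omega)]
      exact h3 i (by omega)
    · funext i
      by_cases hi : i < k
      · rw [tau_lt hi, Function.update_of_ne (by omega)]
      · rw [tau_ge (not_lt.1 hi), h3 i (not_lt.1 hi)]

theorem rho_hun (hU : ∀ i, IsOpen (U i)) {k : ℕ} : ∀ ξ ξ' x, (ξ, x) ∈ Sk Z U (k + 1) →
    (ξ', x) ∈ Sk Z U (k + 1) → (ξ, x) ∉ Dk' Z U k → tau k ξ = tau k ξ' → ξ = ξ' := by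
  intro ξ ξ' x h h' hD he
  have hfr : x ∉ frontier (U k) := fun hx => hD ⟨h, hx⟩
  have h1 := h.2.1 k (Nat.lt_succ_self k)
  have h2 := h'.2.1 k (Nat.lt_succ_self k)
  have hk : ξ k = ξ' k := by
    by_contra hne
    apply hfr
    rw [(hU k).frontier_eq]
    cases e1 : ξ k <;> cases e2 : ξ' k
    · rw [e1, e2] at hne; exact absurd rfl hne
    · exact ⟨h1.1 e1, h2.2 e2⟩
    · exact ⟨h2.1 e2, h1.2 e1⟩
    · rw [e1, e2] at hne; exact absurd rfl hne
  funext i
  by_cases hi : i < k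
  · have := congrFun he i
    rwa [tau_lt hi, tau_lt hi] at this
  · by_cases hik : i = k
    · rw [hik, hk]
    · exact (h.2.2 i (by omega)).trans (h'.2.2 i (by omega)).symm

theorem Si_one (hZ : ∀ x ∈ Z, ∀ y ∈ Z, x ≠ y → ∃ k, x ∈ U k ∧ y ∉ closure (U k)) {ξ : ℕ → Bool}
    {x y : X} (hx : (ξ, x) ∈ Si Z U) (hy : (ξ, y) ∈ Si Z U) : x = y := by
  by_contra hne
  obtain ⟨k, h1, h2⟩ := hZ x hx.1 y hy.1 hne
  cases e : ξ k
  · exact h2 ((hy.2 k).1 e)
  · exact (hx.2 k).2 e h1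

end Geo

end Pool.Agent.Helper82.FU
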