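import Pool.Agent.Helper82.FU.CX

/-!
Project FU (MP_d97caa_an), step (2): over the Cantor space all classes with values in a K-trivial
algebra are small.
-/

open scoped ZeroAtInfty BoundedContinuousFunction Topology
open TopologicalSpace Filter

namespace Pool.Agent.Helper82.FU

open Pool.Agent.Helper39.CarDefs Pool.Agent.Helper93.FU Pool.Agent.Helper39.FU

variable {𝒩 : Cls} {T : Biv}

theorem small_cantor (hT : IsBiv 𝒩 T) {A : Type} [NonUnitalCStarAlgebra A] (hA : 𝒩 A)
    (c : CXAlg (ℕ → Bool) A)
    (hF : ∀ ξ : ℕ → Bool, ∃ (F : Type) (_ : NonUnitalCStarAlgebra F) (π : Hom A F),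
      c.IsFibre ξ π ∧ T.Uct F)
    (i : ZMod 2) {Q : Type} [NonUnitalCStarAlgebra Q]
    (r : ∀ (B : Type) [NonUnitalCStarAlgebra B], Hom Q B → T.G i A B)
    (hr : ∀ (B B' : Type) [NonUnitalCStarAlgebra B] [NonUnitalCStarAlgebra B'] (g : Hom B B')
      (f : Hom Q B) (h : Hom Q B'), IsCompHom f g h → T.push i A g (r B f) = r B' h)
    (hs : ∀ (B : Type) [NonUnitalCStarAlgebra B], Room B → Function.Surjective (r B))
    {B : Type} [NonUnitalCStarAlgebra B] (hB : Room B) (hK : T.Zero ℂ B) (z : T.G i A B)
    (S : Finset Q) (ε : ℝ) (hε : 0 < ε) : Small r B S ε z := by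
  classical
  by_contra hz
  -- halving
  have half : ∀ (b : ℕ → Bool) (n : ℕ), ¬ Small r B S ε (T.pull i B (cyl c b n).hom z) →
      ∃ v : Bool, ¬ Small r B S ε (T.pull i B (cyl c (Function.update b n v) (n + 1)).hom z) := by
    intro b n h
    by_contra h2
    push Not at h2
    apply h
    have h3 := (cyl c (Function.update b n true) (n + 1)).dec hT hA i
      (T.pull i B (cyl c b n).hom z)
    have hm : ∀ f : C(ℕ → Bool, ℂ), chi b n * f = f * chi b n := fun f => mul_comm _ _
    have hm1 : chi b n * chi (Function.update b n true) (n + 1) =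
        chi (Function.update b n true) (n + 1) := by
      have e1 := chi_dec (Function.update b n true) n
      have e2 : chi (Function.update b n true) n = chi b n :=
        chi_congr fun k hk => Function.update_of_ne (by omega) _ _
      rw [e2] at e1
      rw [mul_comm, e1]
    rw [pull_comp hT hA hA hA i (cyl c (Function.update b n true) (n + 1)).hom (cyl c b n).hom
        (cyl c (Function.update b n true) (n + 1)).hom (fun a => ?_),
      pull_comp hT hA hA hA i (cyl c (Function.update b n true) (n + 1)).compl.hom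
        (cyl c b n).hom (cyl c (Function.update b n false) (n + 1)).hom (fun a => ?_)] at h3
    · rw [← h3]
      exact small_add hT hA hB r hr S (h2 true) (h2 false)
    · change c.act _ a = c.act _ (a - c.act _ a)
      rw [map_sub, ← act_mul, hm1, ← act_sub]
      congr 2
      rw [chi_split b n, add_sub_cancel_right]
    · change c.act _ a = c.act _ (c.act _ a)
      rw [← act_mul, hm1]
  have h0 : ¬ Small r B S ε (T.pull i B (cyl c (fun _ => false) 0).hom z) := by
    rwa [pull_id hT hA i _ (fun a => by
      change c.act _ a = a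
      rw [chi_zero, act_one])]
  choose! v hv using half
  let seq : (n : ℕ) → {b : ℕ → Bool // ¬ Small r B S ε (T.pull i B (cyl c b n).hom z)} :=
    fun n => Nat.rec (motive := fun n =>
      {b : ℕ → Bool // ¬ Small r B S ε (T.pull i B (cyl c b n).hom z)}) ⟨_, h0⟩
      (fun n b => ⟨Function.update b.1 n (v b.1 n), hv b.1 n b.2⟩) n
  let b : ℕ → Bool := fun k => (seq (k + 1)).1 k
  have hseq : ∀ n k, k < n → (seq n).1 k = b k := by
    intro n
    induction n with
    | zero => intro k hk; omega
    | succ n ih =>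
      intro k hk
      by_cases hkn : k = n
      · subst hkn; rfl
      · have h1 : (seq (n + 1)).1 k = Function.update (seq n).1 n (v (seq n).1 n) k := rfl
        rw [h1, Function.update_of_ne hkn]
        exact ih k (by omega)
  have hb : ∀ n, ¬ Small r B S ε (T.pull i B (cyl c b n).hom z) := by
    intro n
    have h1 := (seq n).2
    have h2 : cyl c (seq n).1 n = cyl c b n := by
      have h3 : chi (seq n).1 n = chi b n := chi_congr (hseq n)
      unfold cyl
      congr 1
    rwa [h2] at h1
  -- the product of the classes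
  have hsur : ∀ n, ∃ f : Hom Q B, r B f = T.pull i B (cyl c b n).hom z := fun n => hs B hB _
  choose f hf using hsur
  obtain ⟨F, _, π, hπ, hUF⟩ := hF b
  obtain ⟨w, hw⟩ := core hT hA hB hK hUF π hπ.1 (fun n => cyl c b n)
    (fun n a => by
      change c.act _ (c.act _ a) = c.act _ a
      rw [← act_mul, chi_dec])
    (fun a ha => cyl_tendsto c b a ((hπ.2 a).1 ha))
    (fun n a => fib_one c hπ (chi_self b n) a) i (r _ (fam f))
    (fun n => ⟨z, by
      rw [hr _ _ (evB B n) (fam f) (f n) (fun a => rfl), hf]⟩)
  obtain ⟨g, rfl⟩ := hs _ (room_c0 hB) w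
  have hg : ∀ n, r B ((evC B n).comp g) = T.pull i B (cyl c b n).hom z := by
    intro n
    rw [← hf n, ← hr _ _ (evB B n) (fam f) (f n) (fun a => rfl), ← hw,
      push_comp hT hA i (incl B) (evB B n) (evC B n) (fun a => rfl)]
    exact (hr _ _ (evC B n) g _ (fun a => rfl)).symm
  have hev : ∀ᶠ n in atTop, ∀ x ∈ S, ‖g x n‖ < ε :=
    (Filter.eventually_all_finset S).2 fun x _ => (tendsto_c_norm (g x)).eventually_lt_const hε
  obtain ⟨n, hn⟩ := hev.exists
  exact hb n ⟨(evC B n).comp g, hg n, hn⟩

end Pool.Agent.Helper82.FU
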