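import Pool.Agent.Helper93.FU.Defs

/-!
Project FU (MP_d97caa_an): multiplier isometries and sequences.
-/

open scoped ZeroAtInfty BoundedContinuousFunction
open TopologicalSpace

namespace Pool.Agent.Helper82.FU

open Pool.Agent.Helper39.CarDefs Pool.Agent.Helper93.FU

noncomputable section

/-! ### Multiplier isometries -/

section MI

variable {B : Type} [NonUnitalCStarAlgebra B]

theorem z_left {c : B} (h : ∀ b, star c * b = 0) : c = 0 :=
  (CStarRing.star_mul_self_eq_zero_iff c).1 (h c)

theorem z_mid {z : B} (h : ∀ c d : B, c * z * d = 0) : z = 0 := by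
  have h1 : star (star z * z) * (star z * z) = 0 := by
    rw [star_mul, star_star]
    exact h (star z) (star z * z)
  exact (CStarRing.star_mul_self_eq_zero_iff z).1 ((CStarRing.star_mul_self_eq_zero_iff _).1 h1)

theorem p_add (t : MIso B) (a b : B) : t.p (a + b) = t.p a + t.p b := by
  refine sub_eq_zero.1 (z_left fun c => ?_)
  rw [star_sub, sub_mul, star_add, add_mul, t.adj, t.adj, t.adj, star_add, add_mul, sub_self]

theorem p_smul (t : MIso B) (r : ℂ) (a : B) : t.p (r • a) = r • t.p a := by
  refine sub_eq_zero.1 (z_left fun c => ?_)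
  rw [star_sub, sub_mul, star_smul, smul_mul_assoc, t.adj, t.adj, star_smul, smul_mul_assoc,
    sub_self]

theorem p_zero (t : MIso B) : t.p 0 = 0 := by
  have := p_smul t 0 0
  rwa [zero_smul, zero_smul] at this

theorem p_mul (t : MIso B) (a b : B) : t.p (a * b) = t.p a * b := by
  refine sub_eq_zero.1 (z_left fun c => ?_)
  rw [star_sub, sub_mul, t.adj, star_mul, star_mul, mul_assoc, mul_assoc, t.adj, sub_self]

theorem adj' (t : MIso B) (a b : B) : a * t.p b = star (t.q (star a)) * b := by
  have := t.adj b (star a)
  have h2 := congrArg star this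
  rwa [star_mul, star_mul, star_star, star_star, star_star] at h2

theorem comm (t : MIso B) (b : B) : t.p (star (t.p (star b))) = star (t.p (star (t.p b))) := by
  refine sub_eq_zero.1 (z_mid fun c d => ?_)
  have h1 : c * t.p (star (t.p (star b))) * d = star (t.q (star c)) * b * t.q d := by
    rw [adj', mul_assoc, t.adj, star_star, mul_assoc]
  have h2 : c * star (t.p (star (t.p b))) * d = star (t.q (star c)) * b * t.q d := by
    rw [mul_assoc, t.adj, star_star, ← mul_assoc, adj']
  rw [mul_sub, sub_mul, h1, h2, sub_self]

theorem ad_mul' (t : MIso B) (a b : B) :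
    t.p (star (t.p (star a))) * b = t.p a * t.q b := by
  rw [comm, t.adj, star_star]

/-- `b ↦ t b t*` -/
def ad (t : MIso B) : Hom B B where
  toFun b := t.p (star (t.p (star b)))
  map_smul' r b := by
    rw [star_smul, p_smul, star_smul, star_star, p_smul]; rfl
  map_zero' := by rw [star_zero, p_zero, star_zero, p_zero]
  map_add' a b := by rw [star_add, p_add, star_add, p_add]
  map_mul' a b := by
    rw [ad_mul', t.iso, ← p_mul]
    congr 1
    rw [star_mul, p_mul, star_mul, star_star]
  map_star' b := by
    rw [star_star, comm, star_star]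

theorem ad_apply (t : MIso B) (b : B) : ad t b = t.p (star (t.p (star b))) := rfl

theorem isAd (t : MIso B) : IsAd t (ad t) := fun _ => rfl

theorem ad_orth {t₀ t₁ : MIso B} (h : ∀ a, t₀.q (t₁.p a) = 0) (a b : B) :
    ad t₀ a * ad t₁ b = 0 := by
  rw [ad_apply, ad_mul', ad_apply, h, mul_zero]

theorem ad_orth' {t₀ t₁ : MIso B} (h : ∀ a, t₀.q (t₁.p a) = 0) (a b : B) :
    ad t₁ a * ad t₀ b = 0 := by
  have := congrArg star (ad_orth h (star b) (star a))
  rwa [star_mul, ← map_star, ← map_star, star_star, star_star, star_zero] at this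

/-- `x ↦ t₀ x₀ t₀* + t₁ x₁ t₁*` -/
def sumHom {t₀ t₁ : MIso B} (h : ∀ a, t₀.q (t₁.p a) = 0) : Hom (ℕ →ᵇ B) B where
  toFun x := ad t₀ (x 0) + ad t₁ (x 1)
  map_smul' r b := by
    change ad t₀ (r • b 0) + ad t₁ (r • b 1) = r • (ad t₀ (b 0) + ad t₁ (b 1))
    rw [map_smul, map_smul, smul_add]
  map_zero' := by
    change ad t₀ 0 + ad t₁ 0 = 0
    rw [map_zero, map_zero, add_zero]
  map_add' a b := by
    change ad t₀ (a 0 + b 0) + ad t₁ (a 1 + b 1) = _
    rw [map_add, map_add]
    abel
  map_mul' a b := by
    change ad t₀ (a 0 * b 0) + ad t₁ (a 1 * b 1) = _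
    rw [map_mul, map_mul, add_mul, mul_add, mul_add, ad_orth h, ad_orth' h, add_zero, zero_add]
  map_star' b := by
    change ad t₀ (star (b 0)) + ad t₁ (star (b 1)) = star (ad t₀ (b 0) + ad t₁ (b 1))
    rw [map_star, map_star, star_add]

theorem sumHom_apply {t₀ t₁ : MIso B} (h : ∀ a, t₀.q (t₁.p a) = 0) (x : ℕ →ᵇ B) :
    sumHom h x = ad t₀ (x 0) + ad t₁ (x 1) := rfl

end MI

/-! ### Sequences -/

section Seq

variable (B : Type) [NonUnitalCStarAlgebra B]

/-- `b` in the coordinate `m`, zero elsewhere -/
def inj (m : ℕ) : Hom B (ℕ →ᵇ B) where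
  toFun b := BoundedContinuousFunction.ofNormedAddCommGroupDiscrete
    (fun n => if n = m then b else 0) ‖b‖ (fun n => by
      split_ifs
      · exact le_rfl
      · rw [norm_zero]; exact norm_nonneg _)
  map_smul' r b := by
    ext n
    change (if n = m then r • b else 0) = r • (if n = m then b else 0)
    split_ifs <;> simp
  map_zero' := by
    ext n
    change (if n = m then (0 : B) else 0) = 0
    split_ifs <;> rfl
  map_add' a b := by
    ext n
    change (if n = m then a + b else 0) = (if n = m then a else 0) + (if n = m then b else 0)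
    split_ifs <;> simp
  map_mul' a b := by
    ext n
    change (if n = m then a * b else 0) = (if n = m then a else 0) * (if n = m then b else 0)
    split_ifs <;> simp
  map_star' b := by
    ext n
    change (if n = m then star b else 0) = star (if n = m then b else 0)
    split_ifs <;> simp

theorem inj_apply (m n : ℕ) (b : B) : inj B m b n = if n = m then b else 0 := rfl

/-- truncation to the coordinates `< m` -/
def trunc (m : ℕ) : Hom (ℕ →ᵇ B) (ℕ →ᵇ B) where
  toFun x := BoundedContinuousFunction.ofNormedAddCommGroupDiscrete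
    (fun n => if n < m then x n else 0) ‖x‖ (fun n => by
      split_ifs
      · exact x.norm_coe_le_norm n
      · rw [norm_zero]; exact norm_nonneg _)
  map_smul' r b := by
    ext n
    change (if n < m then r • b n else 0) = r • (if n < m then b n else 0)
    split_ifs <;> simp
  map_zero' := by
    ext n
    change (if n < m then (0 : B) else 0) = 0
    split_ifs <;> rfl
  map_add' a b := by
    ext n
    change (if n < m then a n + b n else 0) = (if n < m then a n else 0) + (if n < m then b n else 0)
    split_ifs <;> simp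
  map_mul' a b := by
    ext n
    change (if n < m then a n * b n else 0) = (if n < m then a n else 0) * (if n < m then b n else 0)
    split_ifs <;> simp
  map_star' b := by
    ext n
    change (if n < m then star (b n) else 0) = star (if n < m then b n else 0)
    split_ifs <;> simp

theorem trunc_apply (m n : ℕ) (x : ℕ →ᵇ B) : trunc B m x n = if n < m then x n else 0 := rfl

variable {B}
variable {Q : Type} [NonUnitalCStarAlgebra Q]

/-- the product of a sequence of *-homomorphisms -/
def fam (f : ℕ → Hom Q B) : Hom Q (ℕ →ᵇ B) where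
  toFun x := BoundedContinuousFunction.ofNormedAddCommGroupDiscrete
    (fun n => f n x) ‖x‖ (fun n => NonUnitalStarAlgHom.norm_apply_le (f n) x)
  map_smul' r b := by
    ext n
    change f n (r • b) = r • f n b
    rw [map_smul]
  map_zero' := by
    ext n
    change f n 0 = 0
    rw [map_zero]
  map_add' a b := by
    ext n
    change f n (a + b) = f n a + f n b
    rw [map_add]
  map_mul' a b := by
    ext n
    change f n (a * b) = f n a * f n b
    rw [map_mul]
  map_star' b := by
    ext n
    change f n (star b) = star (f n b)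
    rw [map_star]

theorem fam_apply (f : ℕ → Hom Q B) (x : Q) (n : ℕ) : fam f x n = f n x := rfl

theorem fam_norm_lt (f : ℕ → Hom Q B) (x : Q) {r : ℝ} (hr : 0 < r) (h : ∀ n, ‖f n x‖ ≤ r) :
    ‖fam f x‖ ≤ r :=
  BoundedContinuousFunction.norm_le hr.le |>.2 h

end Seq

end

end Pool.Agent.Helper82.FU
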