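import Pool.Agent.Helper82.FU.TreeA
import Pool.Agent.Helper51.FU.Cls
import Pool.Agent.Helper51.FU.Fib
import Pool.Agent.Helper39.FU.Field

/-!
Project FU (MP_d97caa_an): fibrewise UCT over countable-dimensional spaces.
-/

set_option autoImplicit false

open TopologicalSpace Set Filter Topology

namespace Pool.Agent.Helper82.FU

open Pool.Agent.Helper39.CarDefs Pool.Agent.Helper93.FU

variable {𝒩 : Cls} {T : Biv}

/-- two models of a quotient -/
theorem uct_model (hT : IsBiv 𝒩 T) {A F F' : Type} [NonUnitalCStarAlgebra A]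
    [NonUnitalCStarAlgebra F] [NonUnitalCStarAlgebra F'] (hA : 𝒩 A) (π : Hom A F) (π' : Hom A F')
    (hπ : Function.Surjective π) (hπ' : Function.Surjective π') (h : ∀ a, π a = 0 ↔ π' a = 0)
    (hU : T.Uct F) : T.Uct F' := by
  have h2 : ∀ a b, π a = π b ↔ π' a = π' b := fun a b => by
    rw [← sub_eq_zero, ← map_sub, h, map_sub, sub_eq_zero]
  choose s hs using hπ
  let φ : Hom F F' :=
    { toFun := fun y => π' (s y)
      map_smul' := fun c y => by
        change π' (s (c • y)) = c • π' (s y)
        rw [← map_smul, ← h2, map_smul, hs, hs]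
      map_zero' := by
        change π' (s 0) = 0
        rw [← h, hs]
      map_add' := fun x y => by
        change π' (s (x + y)) = π' (s x) + π' (s y)
        rw [← map_add, ← h2, map_add, hs, hs, hs]
      map_mul' := fun x y => by
        change π' (s (x * y)) = π' (s x) * π' (s y)
        rw [← map_mul, ← h2, map_mul, hs, hs, hs]
      map_star' := fun x => by
        change π' (s (star x)) = star (π' (s x))
        rw [← map_star, ← h2, map_star, hs, hs] }
  have hφ : Function.Bijective φ := by
    constructor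
    · intro x y (hxy : π' (s x) = π' (s y))
      rw [← hs x, ← hs y]
      exact (h2 _ _).2 hxy
    · intro y
      obtain ⟨a, rfl⟩ := hπ' y
      refine ⟨π a, ?_⟩
      change π' (s (π a)) = π' a
      rw [← h2, hs]
  have hsur : Function.Surjective π := fun y => ⟨s y, hs y⟩
  exact (uct_bij hT (mem_surj hT hA π hsur) (mem_surj hT hA π' hπ') φ hφ).1 hU

/-- **Fibrewise UCT over countable-dimensional compact metrizable spaces.** -/
theorem main (𝒩 : Cls) (T : Biv) (hT : IsBiv 𝒩 T) (X A : Type) [TopologicalSpace X]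
    [CompactSpace X] [T2Space X] [SecondCountableTopology X] [NonUnitalCStarAlgebra A]
    (hA : 𝒩 A) (c : CXAlg X A) (hX : CountableDim X) (F : X → Type)
    [∀ x, NonUnitalCStarAlgebra (F x)] (π : ∀ x, Hom A (F x)) (hπ : ∀ x, c.IsFibre x (π x))
    (hU : ∀ x, T.Uct (F x)) : T.Uct A := by
  obtain ⟨F', _, Φ, hΦ⟩ := Pool.Agent.Helper39.FU.exists_ufield c
  have hN : HN 𝒩 Φ := fun S hS => Pool.Agent.Helper51.FU.G_N hT.cls hA Φ hS
  have hL : HL Φ := by
    intro S hS g ε hε
    obtain ⟨k, a, ha, hg⟩ := Pool.Agent.Helper51.FU.lcd hS g hε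
    refine ⟨k, a, fun ξ ξ' h => ?_, hg⟩
    have e : Pool.Agent.Helper51.FU.tr k ξ = Pool.Agent.Helper51.FU.tr k ξ' := by
      funext i
      change (if i < k then ξ i else false) = if i < k then ξ' i else false
      split_ifs with hi
      · exact h i hi
      · rfl
    rw [← ha ξ, ← ha ξ', e]
  have hF : HF Φ := by
    intro S hS
    haveI := Pool.Agent.Helper51.FU.compS hS
    exact ⟨Pool.Agent.Helper51.FU.cxG Φ, fun ξ => Pool.Agent.Helper51.FU.cxG_fib hS ξ⟩
  refine tree hT hX hA hN hL hF fun x => ?_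
  exact uct_model hT hA (π x) (Φ.π x) (hπ x).1 (hΦ x).1
    (fun a => ((hπ x).2 a).trans ((hΦ x).2 a).symm) (hU x)

end Pool.Agent.Helper82.FU
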