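import Pool.Agent.Helper82.FU.Add

/-!
Project FU (MP_d97caa_an): two formal lemmas for the tree.
-/

open scoped Topology
open TopologicalSpace

namespace Pool.Agent.Helper82.FU

open Pool.Agent.Helper39.CarDefs Pool.Agent.Helper93.FU

variable {𝒩 : Cls} {T : Biv}

/-- restriction to an ideal with trivial quotient is bijective -/
theorem pull_ideal_bij (hT : IsBiv 𝒩 T) {J A D B : Type} [NonUnitalCStarAlgebra J]
    [NonUnitalCStarAlgebra A] [NonUnitalCStarAlgebra D] [NonUnitalCStarAlgebra B] (hA : 𝒩 A)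
    (u : Hom J A) (q : Hom A D) (h : IsExtension u q) (hD : T.Zero D B) (i : ZMod 2) :
    Function.Bijective (T.pull i B u) := by
  obtain ⟨h1, d, h2, h3⟩ := hT.sixA i J A D B hA u q h
  constructor
  · rw [injective_iff_map_eq_zero]
    intro y hy
    obtain ⟨x, rfl⟩ := (h1 y).1 hy
    rw [hD i x, map_zero]
  · intro y
    exact (h2 y).1 (hD (i + 1) _)

/-- quotient by an ideal with vanishing groups -/
theorem pull_quot_bij (hT : IsBiv 𝒩 T) {J A D B : Type} [NonUnitalCStarAlgebra J]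
    [NonUnitalCStarAlgebra A] [NonUnitalCStarAlgebra D] [NonUnitalCStarAlgebra B] (hA : 𝒩 A)
    (u : Hom J A) (q : Hom A D) (h : IsExtension u q) (hJ : T.Zero J B) (i : ZMod 2) :
    Function.Bijective (T.pull i B q) := by
  constructor
  · rw [injective_iff_map_eq_zero]
    intro y hy
    obtain ⟨j, rfl⟩ : ∃ j, i = j + 1 := ⟨i - 1, by ring⟩
    obtain ⟨-, d, -, h3⟩ := hT.sixA j J A D B hA u q h
    obtain ⟨x, rfl⟩ := (h3 y).1 hy
    rw [hJ j x, map_zero]
  · intro y
    exact ((hT.sixA i J A D B hA u q h).1 y).1 (hJ i _)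

/-- an extension of algebras with vanishing groups -/
theorem zero_ext (hT : IsBiv 𝒩 T) {J A D B : Type} [NonUnitalCStarAlgebra J]
    [NonUnitalCStarAlgebra A] [NonUnitalCStarAlgebra D] [NonUnitalCStarAlgebra B] (hA : 𝒩 A)
    (u : Hom J A) (q : Hom A D) (h : IsExtension u q) (hJ : T.Zero J B) (hD : T.Zero D B) :
    T.Zero A B := by
  intro i y
  obtain ⟨x, rfl⟩ := ((hT.sixA i J A D B hA u q h).1 y).1 (hJ i _)
  rw [hD i x, map_zero]

/-- isomorphic algebras -/
theorem pull_iso_bij (hT : IsBiv 𝒩 T) {A A' B : Type} [NonUnitalCStarAlgebra A]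
    [NonUnitalCStarAlgebra A'] [NonUnitalCStarAlgebra B] (hA : 𝒩 A) (hA' : 𝒩 A')
    (f : Hom A A') (hf : Function.Bijective f) (i : ZMod 2) :
    Function.Bijective (T.pull i B f) := by
  let e : A ≃⋆ₐ[ℂ] A' := StarAlgEquiv.ofBijective f hf
  let g : Hom A' A := (e.symm : A' ≃⋆ₐ[ℂ] A)
  have h1 : ∀ a, g (f a) = a := fun a => e.symm_apply_apply a
  have h2 : ∀ a, f (g a) = a := fun a => e.apply_symm_apply a
  constructor
  · intro x y hxy
    have h3 := congrArg (T.pull i B g) hxy
    rwa [pull_comp hT hA' hA hA' i g f (idH A') (fun a => (h2 a).symm),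
      pull_comp hT hA' hA hA' i g f (idH A') (fun a => (h2 a).symm),
      pull_id hT hA' i _ idH_apply, pull_id hT hA' i _ idH_apply] at h3
  · intro y
    refine ⟨T.pull i B g y, ?_⟩
    rw [pull_comp hT hA hA' hA i f g (idH A) (fun a => (h1 a).symm), pull_id hT hA i _ idH_apply]

/-- Excision: a map of extensions which is an isomorphism on the ideals and whose quotients have
vanishing groups induces an isomorphism. -/
theorem pull_exc_bij (hT : IsBiv 𝒩 T) {J A D J' A' D' B : Type} [NonUnitalCStarAlgebra J]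
    [NonUnitalCStarAlgebra A] [NonUnitalCStarAlgebra D] [NonUnitalCStarAlgebra J']
    [NonUnitalCStarAlgebra A'] [NonUnitalCStarAlgebra D'] [NonUnitalCStarAlgebra B]
    (hA : 𝒩 A) (hA' : 𝒩 A') (u : Hom J A) (q : Hom A D) (h : IsExtension u q)
    (u' : Hom J' A') (q' : Hom A' D') (h' : IsExtension u' q') (hD : T.Zero D B)
    (hD' : T.Zero D' B) (f : Hom A A') (φ : Hom J J') (hφ : Function.Bijective φ)
    (hc : ∀ a, f (u a) = u' (φ a)) (i : ZMod 2) : Function.Bijective (T.pull i B f) := by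
  have hJ : 𝒩 J := hT.cls.ideal _ _ _ _ _ h hA
  have hJ' : 𝒩 J' := hT.cls.ideal _ _ _ _ _ h' hA'
  have e : ∀ z, T.pull i B u (T.pull i B f z) = T.pull i B φ (T.pull i B u' z) := fun z => by
    rw [pull_comp hT hJ hA hA' i u f (f.comp u) (fun a => rfl),
      pull_comp hT hJ hJ' hA' i φ u' (f.comp u) (fun a => hc a)]
  have b1 := pull_ideal_bij hT hA u q h hD i
  have b2 := pull_ideal_bij hT hA' u' q' h' hD' i
  have b3 := pull_iso_bij (B := B) hT hJ hJ' φ hφ i
  have b4 : Function.Bijective fun z => T.pull i B u (T.pull i B f z) := by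
    have : (fun z => T.pull i B u (T.pull i B f z)) = T.pull i B φ ∘ T.pull i B u' := funext e
    rw [this]
    exact b3.comp b2
  constructor
  · intro x y hxy
    exact b4.1 (congrArg (T.pull i B u) hxy)
  · intro y
    obtain ⟨x, hx⟩ := b4.2 (T.pull i B u y)
    exact ⟨x, b1.1 hx⟩

/-- Increasing unions along maps which induce isomorphisms. -/
theorem zero_of_union (hT : IsBiv 𝒩 T) {A B : Type} {D : ℕ → Type} [NonUnitalCStarAlgebra A]
    [NonUnitalCStarAlgebra B] [∀ k, NonUnitalCStarAlgebra (D k)] (hA : 𝒩 A) (hD : ∀ k, 𝒩 (D k))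
    (j : ∀ k, Hom (D k) (D (k + 1))) (u : ∀ k, Hom (D k) A) (hu : IsUnion j u)
    (hj : ∀ k i, Function.Bijective (T.pull i B (j k))) (hZ : T.Zero A B) : T.Zero (D 0) B := by
  intro i x
  obtain ⟨h1, -⟩ := hT.milnorA i A B D hA hD j u hu
  choose s hs using fun (k : ℕ) (y : T.G i (D k) B) => (hj k i).2 y
  let t : ∀ k, T.G i (D k) B := fun k =>
    Nat.rec (motive := fun k => T.G i (D k) B) x (fun k t => s k t) k
  obtain ⟨g, hg⟩ := h1 t fun k => hs k (t k)
  have h2 : x = T.pull i B (u 0) g := (hg 0).symm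
  rw [h2, hZ i g, map_zero]

end Pool.Agent.Helper82.FU
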