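import Pool.Agent.Helper93.FU.Defs

/-!
Project FU (MP_d97caa_an): induction over countable-dimensional compact metrizable spaces.
-/

open scoped Topology
open TopologicalSpace Filter Set

namespace Pool.Agent.Helper82.FU

open Pool.Agent.Helper93.FU

/-- separation of closed sets by clopen sets in second countable zero-dimensional spaces -/
theorem clopen_sep {E : Type} [TopologicalSpace E] [SecondCountableTopology E]
    (hE : IsTopologicalBasis {s : Set E | IsClopen s}) {A B : Set E} (hA : IsClosed A)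
    (hB : IsClosed B) (hAB : Disjoint A B) : ∃ C : Set E, IsClopen C ∧ A ⊆ C ∧ Disjoint C B := by
  classical
  -- small clopen neighbourhoods
  have h1 : ∀ x : E, ∃ C : Set E, IsClopen C ∧ x ∈ C ∧ (Disjoint C A ∨ Disjoint C B) := by
    intro x
    by_cases hx : x ∈ A
    · have hxB : x ∈ Bᶜ := fun h => hAB.le_bot ⟨hx, h⟩
      obtain ⟨C, hC, hxC, hCB⟩ := hE.exists_subset_of_mem_open hxB hB.isOpen_compl
      exact ⟨C, hC, hxC, Or.inr (disjoint_left.2 fun y hy => hCB hy)⟩
    · obtain ⟨C, hC, hxC, hCA⟩ := hE.exists_subset_of_mem_open (show x ∈ Aᶜ from hx)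
        hA.isOpen_compl
      exact ⟨C, hC, hxC, Or.inl (disjoint_left.2 fun y hy => hCA hy)⟩
  choose C hC hxC hd using h1
  obtain ⟨s, hs, hcov⟩ := countable_cover_nhds (f := C) fun x => (hC x).isOpen.mem_nhds (hxC x)
  rcases s.eq_empty_or_nonempty with rfl | hne
  · have : IsEmpty E := ⟨fun x => by
      have : x ∈ ⋃ x ∈ (∅ : Set E), C x := by rw [hcov]; trivial
      simp at this⟩
    exact ⟨∅, isClopen_empty, fun x => (IsEmpty.false x).elim, disjoint_bot_left⟩
  obtain ⟨u, hu⟩ := hs.exists_eq_range hne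
  have hcov' : ∀ x : E, ∃ n, x ∈ C (u n) := by
    intro x
    have : x ∈ ⋃ x ∈ s, C x := by rw [hcov]; trivial
    obtain ⟨y, hy, hxy⟩ := mem_iUnion₂.1 this
    rw [hu] at hy
    obtain ⟨n, rfl⟩ := hy
    exact ⟨n, hxy⟩
  -- disjoint pieces
  let D : ℕ → Set E := disjointed fun n => C (u n)
  have hD : ∀ n, IsClopen (D n) := by
    intro n
    refine disjointedRec (f := fun n => C (u n)) (p := IsClopen) (fun {t i} ht => ?_) (hC (u n))
    exact ht.diff (hC (u i))
  have hDU : ∀ x, ∃ n, x ∈ D n := by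
    intro x
    have : x ∈ ⋃ n, D n := by
      rw [iUnion_disjointed]
      exact mem_iUnion.2 (hcov' x)
    exact mem_iUnion.1 this
  have hDd : Pairwise (Function.onFun Disjoint D) := disjoint_disjointed _
  have hDle : ∀ n, D n ⊆ C (u n) := fun n => disjointed_subset _ n
  refine ⟨⋃ n ∈ {n | (D n ∩ A).Nonempty}, D n, ⟨?_, ?_⟩, ?_, ?_⟩
  · -- closed
    have : (⋃ n ∈ {n | (D n ∩ A).Nonempty}, D n)ᶜ = ⋃ n ∈ {n | ¬ (D n ∩ A).Nonempty}, D n := by
      ext x
      obtain ⟨n, hn⟩ := hDU x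
      constructor
      · intro h
        refine mem_iUnion₂.2 ⟨n, fun h2 => h (mem_iUnion₂.2 ⟨n, h2, hn⟩), hn⟩
      · intro h h2
        obtain ⟨i, hi, hxi⟩ := mem_iUnion₂.1 h
        obtain ⟨j, hj, hxj⟩ := mem_iUnion₂.1 h2
        have hij : i = j := by
          by_contra hne
          exact (hDd hne).le_bot ⟨hxi, hxj⟩
        subst hij
        exact hi hj
    rw [← isOpen_compl_iff, this]
    exact isOpen_biUnion fun n _ => (hD n).isOpen
  · exact isOpen_biUnion fun n _ => (hD n).isOpen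
  · intro x hx
    obtain ⟨n, hn⟩ := hDU x
    exact mem_iUnion₂.2 ⟨n, ⟨x, hn, hx⟩, hn⟩
  · rw [disjoint_left]
    intro x hx hxB
    obtain ⟨n, hn, hxn⟩ := mem_iUnion₂.1 hx
    obtain ⟨y, hy, hyA⟩ := hn
    rcases hd (u n) with h | h
    · exact h.le_bot ⟨hDle n hy, hyA⟩
    · exact h.le_bot ⟨hDle n hxn, hxB⟩

/-- a neighbourhood whose frontier misses a zero-dimensional subspace -/
theorem partition_point {X : Type} [TopologicalSpace X] [CompactSpace X] [T2Space X]
    [SecondCountableTopology X] (E : Set X) (hE : IsTopologicalBasis {s : Set E | IsClopen s})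
    (x : X) (V : Set X) (hV : V ∈ 𝓝 x) :
    ∃ U : Set X, IsOpen U ∧ x ∈ U ∧ U ⊆ V ∧ frontier U ∩ E = ∅ := by
  letI := metrizableSpaceMetric X
  obtain ⟨r, hr, hrV⟩ := Metric.mem_nhds_iff.1 hV
  -- closed neighbourhoods
  let K₁ : Set X := Metric.closedBall x (r / 3)
  let K₂ : Set X := {y | 2 * r / 3 ≤ dist y x}
  have hK₁ : IsClosed K₁ := Metric.isClosed_closedBall
  have hK₂ : IsClosed K₂ := isClosed_le continuous_const (continuous_id.dist continuous_const)
  have hK : Disjoint K₁ K₂ := by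
    rw [disjoint_left]
    intro y (h1 : dist y x ≤ r / 3) (h2 : 2 * r / 3 ≤ dist y x)
    linarith
  obtain ⟨C, hC, hAC, hCB⟩ := clopen_sep hE (A := ((↑) : E → X) ⁻¹' K₁)
    (B := ((↑) : E → X) ⁻¹' K₂) (hK₁.preimage continuous_subtype_val)
    (hK₂.preimage continuous_subtype_val) (hK.preimage _)
  -- the two separated sets
  let S : Set X := {x} ∪ ((↑) : E → X) '' C
  let T : Set X := {y | r ≤ dist y x} ∪ ((↑) : E → X) '' Cᶜ
  have hTc : IsClosed {y | r ≤ dist y x} :=
    isClosed_le continuous_const (continuous_id.dist continuous_const)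
  have key : ∀ C : Set E, IsClosed C → ∀ y : E, (y : X) ∈ closure (((↑) : E → X) '' C) → y ∈ C := by
    intro C hC y hy
    have h1 : y ∈ closure C := by
      rw [closure_induced]
      exact hy
    rwa [hC.closure_eq] at h1
  have hC1 : closure (((↑) : E → X) '' C) ⊆ {y | dist y x ≤ 2 * r / 3} := by
    refine closure_minimal ?_ (isClosed_le (continuous_id.dist continuous_const) continuous_const)
    rintro y ⟨z, hz, rfl⟩
    by_contra h
    have h' : 2 * r / 3 ≤ dist (z : X) x := (not_le.1 h).le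
    exact hCB.le_bot ⟨hz, h'⟩
  have hC2 : closure (((↑) : E → X) '' Cᶜ) ⊆ {y | r / 3 ≤ dist y x} := by
    refine closure_minimal ?_ (isClosed_le continuous_const (continuous_id.dist continuous_const))
    rintro y ⟨z, hz, rfl⟩
    by_contra h
    have h' : dist (z : X) x ≤ r / 3 := (not_le.1 h).le
    exact hz (hAC h')
  have hST : Disjoint (closure S) T := by
    rw [disjoint_left]
    intro y hy hyT
    rw [show S = {x} ∪ ((↑) : E → X) '' C from rfl, closure_union, closure_singleton] at hy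
    rcases hy with hy | hy
    · rw [mem_singleton_iff.1 hy] at hyT
      rcases hyT with h | ⟨z, hz, hzx⟩
      · have : r ≤ dist x x := h
        rw [dist_self] at this
        linarith
      · refine hz (hAC ?_)
        change dist (z : X) x ≤ r / 3
        rw [hzx, dist_self]
        positivity
    · rcases hyT with h | ⟨z, hz, rfl⟩
      · have h1 : dist y x ≤ 2 * r / 3 := hC1 hy
        have h2 : r ≤ dist y x := h
        linarith
      · exact hz (key C hC.isClosed z hy)
  have hTS : Disjoint S (closure T) := by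
    rw [disjoint_left]
    intro y hyS hy
    rw [show T = {y | r ≤ dist y x} ∪ ((↑) : E → X) '' Cᶜ from rfl, closure_union,
      hTc.closure_eq] at hy
    rcases hy with hy | hy
    · rcases hyS with h | ⟨z, hz, rfl⟩
      · have : r ≤ dist y x := hy
        rw [mem_singleton_iff.1 h, dist_self] at this
        linarith
      · have h1 : dist (z : X) x ≤ 2 * r / 3 := hC1 (subset_closure ⟨z, hz, rfl⟩)
        have h2 : r ≤ dist (z : X) x := hy
        linarith
    · rcases hyS with h | ⟨z, hz, rfl⟩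
      · have h1 : r / 3 ≤ dist y x := hC2 hy
        rw [mem_singleton_iff.1 h, dist_self] at h1
        linarith
      · exact key Cᶜ hC.compl.isClosed z hy hz
  have hsep : SeparatedNhds S T :=
    separatedNhds_iff_disjoint.2 (CompletelyNormalSpace.completely_normal hST hTS)
  obtain ⟨U, W, hU, hW, hSU, hTW, hUW⟩ := hsep
  refine ⟨U, hU, hSU (Or.inl rfl), fun y hy => hrV ?_, ?_⟩
  · rw [Metric.mem_ball]
    by_contra h
    exact hUW.le_bot ⟨hy, hTW (Or.inl (not_lt.1 h))⟩
  · rw [eq_empty_iff_forall_notMem]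
    rintro y ⟨hy, hyE⟩
    rw [hU.frontier_eq] at hy
    by_cases hyC : (⟨y, hyE⟩ : E) ∈ C
    · exact hy.2 (hSU (Or.inr ⟨_, hyC, rfl⟩))
    · have h1 : y ∈ W := hTW (Or.inr ⟨_, hyC, rfl⟩)
      have h2 : Disjoint (closure U) W := hUW.closure_left hW
      exact h2.le_bot ⟨hy.1, h1⟩

/-- Induction over countable-dimensional compact metrizable spaces. -/
theorem topo (X : Type) [TopologicalSpace X] [CompactSpace X] [T2Space X]
    [SecondCountableTopology X] (hX : CountableDim X) (P : Set X → Prop) (h0 : P ∅)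
    (hstep : ∀ Y : Set X, IsClosed Y → (∀ x ∈ Y, ∀ V ∈ 𝓝 x, ∃ U : Set X, IsOpen U ∧ x ∈ U ∧
      U ⊆ V ∧ P (Y ∩ frontier U)) → P Y) : P univ := by
  classical
  obtain ⟨E, hcov, hE⟩ := hX
  by_contra hP
  have next : ∀ (n : ℕ) (Y : Set X), IsClosed Y → ¬ P Y →
      ∃ Y' : Set X, IsClosed Y' ∧ ¬ P Y' ∧ Y' ⊆ Y ∧ Y' ∩ E n = ∅ := by
    intro n Y hY hPY
    by_contra hno
    push Not at hno
    refine hPY (hstep Y hY fun x hx V hV => ?_)
    obtain ⟨U, hU, hxU, hUV, hUE⟩ := partition_point (E n) (hE n) x V hV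
    refine ⟨U, hU, hxU, hUV, ?_⟩
    by_contra hPU
    refine (hno (Y ∩ frontier U) (hY.inter isClosed_frontier) hPU inter_subset_left).ne_empty ?_
    rw [inter_assoc, hUE, inter_empty]
  choose! f hf1 hf2 hf3 hf4 using next
  let Y : ℕ → Set X := fun n => Nat.rec univ (fun n Y => f n Y) n
  have hY : ∀ n, IsClosed (Y n) ∧ ¬ P (Y n) := by
    intro n
    induction n with
    | zero => exact ⟨isClosed_univ, hP⟩
    | succ n ih => exact ⟨hf1 n (Y n) ih.1 ih.2, hf2 n (Y n) ih.1 ih.2⟩
  have hne : ∀ n, (Y n).Nonempty := by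
    intro n
    rw [nonempty_iff_ne_empty]
    intro h
    exact (hY n).2 (h ▸ h0)
  obtain ⟨x, hx⟩ := IsCompact.nonempty_iInter_of_sequence_nonempty_isCompact_isClosed Y
    (fun n => hf3 n (Y n) (hY n).1 (hY n).2) hne (hY 0).1.isCompact (fun n => (hY n).1)
  rw [mem_iInter] at hx
  obtain ⟨n, hn⟩ := hcov x
  have h1 : x ∈ Y (n + 1) ∩ E n := ⟨hx (n + 1), hn⟩
  rw [show Y (n + 1) ∩ E n = ∅ from hf4 n (Y n) (hY n).1 (hY n).2] at h1
  exact h1

end Pool.Agent.Helper82.FU
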