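import Pool.Agent.Helper82.FU.Halve
import Pool.Agent.Helper39.FU.Small

/-!
Project FU (MP_d97caa_an): fibrewise UCT over the Cantor space.
-/

open scoped ZeroAtInfty BoundedContinuousFunction Topology
open TopologicalSpace Filter

namespace Pool.Agent.Helper82.FU

open Pool.Agent.Helper39.CarDefs Pool.Agent.Helper93.FU Pool.Agent.Helper39.FU

/-- Steps (1) and (2). -/
theorem small {𝒩 : Cls} {T : Biv} (hT : IsBiv 𝒩 T) (A : Type) [NonUnitalCStarAlgebra A]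
    (hA : 𝒩 A) (c : CXAlg (ℕ → Bool) A)
    (hF : ∀ ξ : ℕ → Bool, ∃ (F : Type) (_ : NonUnitalCStarAlgebra F) (π : Hom A F),
      c.IsFibre ξ π ∧ T.Uct F) :
    ∀ i : ZMod 2, ∃ (Q : Type) (_ : NonUnitalCStarAlgebra Q) (_ : SeparableSpace Q)
      (r : ∀ (B : Type) [NonUnitalCStarAlgebra B], Hom Q B → T.G i A B),
      (∀ (B B' : Type) [NonUnitalCStarAlgebra B] [NonUnitalCStarAlgebra B'] (g : Hom B B')
        (f : Hom Q B) (h : Hom Q B'), IsCompHom f g h → T.push i A g (r B f) = r B' h) ∧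
      ∀ (B : Type) [NonUnitalCStarAlgebra B], Room B → T.Zero ℂ B →
        ∀ (z : T.G i A B) (S : Finset Q) (ε : ℝ), 0 < ε →
          ∃ g : Hom Q B, r B g = z ∧ ∀ f ∈ S, ‖g f‖ < ε := by
  intro i
  obtain ⟨Q, iQ, sQ, r, hr, hs⟩ := hT.rep i A hA
  exact ⟨Q, iQ, sQ, r, hr, fun B _ hB hK z S ε hε =>
    small_cantor hT hA c hF i r hr hs hB hK z S ε hε⟩

/-- **Fibrewise UCT over the Cantor space.** -/
theorem zd {𝒩 : Cls} {T : Biv} (hT : IsBiv 𝒩 T) (A : Type) [NonUnitalCStarAlgebra A]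
    (hA : 𝒩 A) (c : CXAlg (ℕ → Bool) A)
    (hF : ∀ ξ : ℕ → Bool, ∃ (F : Type) (_ : NonUnitalCStarAlgebra F) (π : Hom A F),
      c.IsFibre ξ π ∧ T.Uct F) : T.Uct A := by
  have h := small hT A hA c hF
  choose Q iQ sQ r hr hsm using h
  exact uct_of_small hT A hA Q r hr fun i B _ hB hK z S ε hε => hsm i B hB hK z S ε hε

end Pool.Agent.Helper82.FU
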