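import Pool.Agent.Helper82.FU.Geo
import Pool.Agent.Helper82.FU.Seq2
import Pool.Agent.Helper82.FU.ZD

/-!
Project FU (MP_d97caa_an): the tree.
-/

set_option autoImplicit false

open TopologicalSpace Set Filter Topology
open scoped ENNReal

namespace Pool.Agent.Helper82.FU

open Pool.Agent.Helper39.CarDefs Pool.Agent.Helper93.FU
open Pool.Agent.Helper51.FU (UField G R ri rho G_ext G_norm_apply ev inc res ext_res rho_bij mk
  res_apply pull_apply inc_bij)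

variable {𝒩 : Cls} {T : Biv}

section General

variable {A A' Q : Type} [NonUnitalCStarAlgebra A] [NonUnitalCStarAlgebra A']
  [NonUnitalCStarAlgebra Q]

theorem mem_surj (hT : IsBiv 𝒩 T) (hA : 𝒩 A) (π : Hom A Q) (hπ : Function.Surjective π) : 𝒩 Q :=
  hT.cls.quot _ _ _ _ _ (isExt_ker π hπ) hA

theorem uct_bij (hT : IsBiv 𝒩 T) (hA : 𝒩 A) (hA' : 𝒩 A') (f : Hom A A')
    (hf : Function.Bijective f) : T.Uct A ↔ T.Uct A' := by
  constructor
  · intro h B _ hB hK i z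
    have h1 := pull_iso_bij (B := B) hT hA hA' f hf i
    have h2 : T.pull i B f z = T.pull i B f 0 := by
      rw [map_zero]; exact h B hB hK i _
    exact h1.1 h2
  · intro h B _ hB hK i z
    obtain ⟨y, rfl⟩ := (pull_iso_bij (B := B) hT hA hA' f hf i).2 z
    rw [h B hB hK i y, map_zero]

theorem uct_subsingleton (hT : IsBiv 𝒩 T) (hA : 𝒩 A) [Subsingleton A] : T.Uct A :=
  fun _ _ _ _ i z => zeroA hT hA i z

end General

section Tree

variable {X : Type} [TopologicalSpace X] {F : X → Type} [∀ x, NonUnitalCStarAlgebra (F x)]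
  {A : Type} [NonUnitalCStarAlgebra A]

/-- membership of the section algebras -/
def HN (𝒩 : Cls) (Φ : UField X F A) : Prop :=
  ∀ S : Set ((ℕ → Bool) × X), IsClosed S → 𝒩 (G Φ S)

/-- locally constant sections are dense -/
def HL (Φ : UField X F A) : Prop :=
  ∀ S : Set ((ℕ → Bool) × X), IsClosed S → ∀ (g : G Φ S) (ε : ℝ), 0 < ε →
    ∃ (k : ℕ) (a : (ℕ → Bool) → A), (∀ ξ ξ', (∀ i < k, ξ i = ξ' i) → a ξ = a ξ') ∧
      ∀ z : S, ‖g.1 z - Φ.π z.1.2 (a z.1.1)‖ ≤ ε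

/-- the section algebras as algebras over the Cantor space -/
def HF (Φ : UField X F A) : Prop :=
  ∀ S : Set ((ℕ → Bool) × X), IsClosed S → ∃ c : CXAlg (ℕ → Bool) (G Φ S), ∀ ξ : ℕ → Bool,
    c.IsFibre ξ (res (Φ := Φ) (inter_subset_left : S ∩ {z | z.1 = ξ} ⊆ S))

/-- the set `{ξ} × Z` -/
def Pt (ξ : ℕ → Bool) (Z : Set X) : Set ((ℕ → Bool) × X) := {z | z.1 = ξ ∧ z.2 ∈ Z}

theorem Pt_closed {ξ : ℕ → Bool} {Z : Set X} (hZ : IsClosed Z) : IsClosed (Pt ξ Z) :=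
  (isClosed_eq continuous_fst continuous_const).inter (hZ.preimage continuous_snd)

variable {Φ : UField X F A}

theorem g_eq {S : Set ((ℕ → Bool) × X)} (g : G Φ S) {ξ ξ' : ℕ → Bool} {x : X} (h : (ξ, x) ∈ S)
    (h' : (ξ', x) ∈ S) (e : ξ = ξ') : (g.1 ⟨(ξ, x), h⟩ : F x) = g.1 ⟨(ξ', x), h'⟩ := by
  subst e
  rfl

theorem uct_move (hT : IsBiv 𝒩 T) (hN : HN 𝒩 Φ) (ξ ξ' : ℕ → Bool) {Z : Set X} (hZ : IsClosed Z)
    (h : T.Uct (G Φ (Pt ξ Z))) : T.Uct (G Φ (Pt ξ' Z)) := by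
  refine (uct_bij hT (hN _ (Pt_closed hZ)) (hN _ (Pt_closed hZ))
    (Pool.Agent.Helper51.FU.pull (S := Pt ξ' Z) (S' := Pt ξ Z) (fun _ => ξ') continuous_const
      (fun z hz => ⟨rfl, hz.2⟩)) ⟨?_, ?_⟩).2 h
  · rw [injective_iff_map_eq_zero]
    intro g hg
    refine G_ext fun z => ?_
    obtain ⟨⟨η, x⟩, hz⟩ := z
    have h1 : (Pool.Agent.Helper51.FU.pull (S := Pt ξ' Z) (S' := Pt ξ Z) (fun _ => ξ')
      continuous_const (fun z hz => ⟨rfl, hz.2⟩) g).1 ⟨(ξ, x), rfl, hz.2⟩ = 0 := by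
        rw [hg]; rfl
    rw [pull_apply] at h1
    exact (g_eq g hz ⟨rfl, hz.2⟩ hz.1).trans h1
  · intro g
    refine ⟨Pool.Agent.Helper51.FU.pull (S := Pt ξ Z) (S' := Pt ξ' Z) (fun _ => ξ)
      continuous_const (fun z hz => ⟨rfl, hz.2⟩) g, G_ext fun z => ?_⟩
    obtain ⟨⟨η, x⟩, hz⟩ := z
    rw [pull_apply, pull_apply]
    exact g_eq g _ _ hz.1.symm

theorem uct_small (hT : IsBiv 𝒩 T) (hN : HN 𝒩 Φ) (hU : ∀ x, T.Uct (F x))
    (S : Set ((ℕ → Bool) × X)) (hS : IsClosed S) (h1 : ∀ z ∈ S, ∀ z' ∈ S, z = z') :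
    T.Uct (G Φ S) := by
  rcases S.eq_empty_or_nonempty with rfl | ⟨z, hz⟩
  · haveI : Subsingleton (G Φ (∅ : Set ((ℕ → Bool) × X))) :=
      ⟨fun a b => G_ext fun z => z.2.elim⟩
    exact uct_subsingleton hT (hN _ hS)
  · have hs : Function.Surjective (ev (Φ := Φ) (⟨z, hz⟩ : S)) := fun y => by
      obtain ⟨a, ha⟩ := Φ.surj z.2 y
      exact ⟨inc S Φ a, ha⟩
    have hi : Function.Injective (ev (Φ := Φ) (⟨z, hz⟩ : S)) := by
      rw [injective_iff_map_eq_zero]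
      intro g hg
      refine G_ext fun y => ?_
      have e : y = ⟨z, hz⟩ := Subtype.ext (h1 _ y.2 _ hz)
      subst e
      exact hg
    exact (uct_bij hT (hN _ hS) (mem_surj hT (hN _ hS) _ hs) _ ⟨hi, hs⟩).2 (hU z.2)

theorem uct_fib (hT : IsBiv 𝒩 T) (hN : HN 𝒩 Φ) (hF : HF Φ) (S : Set ((ℕ → Bool) × X))
    (hS : IsClosed S) (h : ∀ ξ, T.Uct (G Φ (S ∩ {z | z.1 = ξ}))) : T.Uct (G Φ S) := by
  obtain ⟨c, hc⟩ := hF S hS
  exact zd hT (G Φ S) (hN S hS) c fun ξ => ⟨G Φ (S ∩ {z | z.1 = ξ}), inferInstance,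
    res inter_subset_left, hc ξ, h ξ⟩

theorem uct_set_eq {S S' : Set ((ℕ → Bool) × X)} (e : S = S') (h : T.Uct (G Φ S)) :
    T.Uct (G Φ S') := by
  subst e
  exact h

/-- the property of the induction -/
def PP (T : Biv) (Φ : UField X F A) (Y : Set X) : Prop :=
  ∀ Z ⊆ Y, IsClosed Z → T.Uct (G Φ (Pt (fun _ => false) Z))

theorem PP_empty (hT : IsBiv 𝒩 T) (hN : HN 𝒩 Φ) : PP T Φ ∅ := by
  intro Z hZ hZc
  have : Subsingleton (G Φ (Pt (fun _ => false) Z)) :=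
    ⟨fun a b => G_ext fun z => (hZ z.2.2).elim⟩
  exact uct_subsingleton hT (hN _ (Pt_closed hZc))

/-- sets over a set with the property -/
theorem uct_over (hT : IsBiv 𝒩 T) (hN : HN 𝒩 Φ) (hF : HF Φ) {Y : Set X} (hY : PP T Φ Y)
    (S : Set ((ℕ → Bool) × X)) (hS : IsClosed S) (hSY : ∀ z ∈ S, z.2 ∈ Y) : T.Uct (G Φ S) := by
  refine uct_fib hT hN hF S hS fun ξ => ?_
  have hZ : IsClosed {x | (ξ, x) ∈ S} := hS.preimage (Continuous.prodMk_right ξ)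
  have e : S ∩ {z | z.1 = ξ} = Pt ξ {x | (ξ, x) ∈ S} := by
    ext ⟨η, x⟩
    constructor
    · rintro ⟨h1, h2⟩
      have h2' : η = ξ := h2
      subst h2'
      exact ⟨rfl, h1⟩
    · rintro ⟨h1, h2⟩
      have h1' : η = ξ := h1
      subst h1'
      exact ⟨h2, rfl⟩
  rw [e]
  exact uct_move hT hN (fun _ => false) ξ hZ (hY _ (fun x hx => hSY _ hx) hZ)

variable {Z : Set X} {U : ℕ → Set X}

/-- `G(S_k) → G(S_{k+1})` -/
def jj (Φ : UField X F A) (Z : Set X) (U : ℕ → Set X) (k : ℕ) :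
    Hom (G Φ (Sk Z U k)) (G Φ (Sk Z U (k + 1))) :=
  Pool.Agent.Helper51.FU.pull (tau k) (tau_cont k) Sk_step

/-- `G(S_k) → G(S_∞)` -/
def uu (Φ : UField X F A) (Z : Set X) (U : ℕ → Set X) (k : ℕ) :
    Hom (G Φ (Sk Z U k)) (G Φ (Si Z U)) :=
  Pool.Agent.Helper51.FU.pull (tau k) (tau_cont k) Si_step

theorem isUnion (hL : HL Φ) (hZ : IsClosed Z) (hU : ∀ i, IsOpen (U i)) :
    IsUnion (B := fun k => G Φ (Sk Z U k)) (jj Φ Z U) (uu Φ Z U) := by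
  refine ⟨fun k => ⟨?_, ?_⟩, ?_⟩
  · change Function.Injective (uu Φ Z U k)
    rw [injective_iff_map_eq_zero]
    intro g hg
    refine G_ext fun z => ?_
    obtain ⟨⟨η, x⟩, hz⟩ := z
    obtain ⟨ξ, h1, h2⟩ := Sk_lift hz
    have h3 : (uu Φ Z U k g).1 ⟨(ξ, x), h1⟩ = 0 := by rw [hg]; rfl
    change g.1 ⟨(tau k ξ, x), Si_step _ h1⟩ = 0 at h3
    exact (g_eq g hz (Si_step _ h1) h2.symm).trans h3
  · intro g
    refine G_ext fun z => ?_
    obtain ⟨⟨η, x⟩, hz⟩ := z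
    change g.1 ⟨(tau k η, x), Si_step _ hz⟩ =
      g.1 ⟨(tau k (tau (k + 1) η), x), Sk_step _ (Si_step _ hz)⟩
    exact g_eq g _ _ (tau_tau k η).symm
  · rw [Metric.dense_iff]
    intro g r hr
    obtain ⟨k, a, ha, hg⟩ := hL (Si Z U) (Si_closed hZ hU) g (r / 2) (by positivity)
    -- the section of `S_k`
    have hfin : (Set.range a).Finite := by
      have h1 : Set.range a ⊆ Set.range fun s : Fin k → Bool =>
          a fun i => if h : i < k then s ⟨i, h⟩ else false := by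
        rintro _ ⟨ξ, rfl⟩
        refine ⟨fun i => ξ i, ha _ _ fun i hi => ?_⟩
        exact dif_pos hi
      exact (Set.finite_range _).subset h1
    obtain ⟨C, hC⟩ := (hfin.image norm).bddAbove
    let s : G Φ (Sk Z U k) := mk (fun z => Φ.π z.1.2 (a z.1.1))
      ⟨C, fun z => (NonUnitalStarAlgHom.norm_apply_le _ _).trans
        (hC ⟨_, ⟨_, rfl⟩, rfl⟩)⟩ fun z₀ ε hε => ⟨a z₀.1.1, by
          have h1 : ∀ᶠ z : Sk Z U k in 𝓝 z₀, ∀ i < k, z.1.1 i = z₀.1.1 i := by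
            have h2 : ∀ i ∈ Finset.range k, ∀ᶠ z : Sk Z U k in 𝓝 z₀, z.1.1 i = z₀.1.1 i := by
              intro i _
              have h3 : Continuous fun z : Sk Z U k => z.1.1 i :=
                (continuous_apply i).comp (continuous_fst.comp continuous_subtype_val)
              refine (h3.tendsto z₀).eventually (p := fun y => y = z₀.1.1 i) ?_
              rw [nhds_discrete]
              exact Filter.eventually_pure.2 rfl
            have h4 := (Filter.eventually_all_finset (Finset.range k)).2 h2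
            filter_upwards [h4] with z hz i hi
            exact hz i (Finset.mem_range.2 hi)
          filter_upwards [h1] with z hz
          rw [ha z.1.1 z₀.1.1 hz, sub_self, norm_zero]
          exact hε⟩
    refine ⟨uu Φ Z U k s, ?_, Set.mem_iUnion.2 ⟨k, ⟨s, rfl⟩⟩⟩
    rw [Metric.mem_ball, dist_comm, dist_eq_norm]
    refine lt_of_le_of_lt (b := r / 2) (Pool.Agent.Helper51.FU.G_norm_le (by positivity)
      fun z => ?_) (by linarith)
    have h5 : (uu Φ Z U k s).1 z = Φ.π z.1.2 (a z.1.1) := by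
      change Φ.π z.1.2 (a (tau k z.1.1)) = Φ.π z.1.2 (a z.1.1)
      rw [ha (tau k z.1.1) z.1.1 fun i hi => tau_lt hi _]
    rw [Pool.Agent.Helper51.FU.G_sub, h5]
    exact hg z

/-- one step of the tree -/
theorem exc_step [CompactSpace X] [T2Space X] (hT : IsBiv 𝒩 T) (hN : HN 𝒩 Φ)
    (hZ : IsClosed Z) (hUo : ∀ i, IsOpen (U i)) (k : ℕ) {B : Type} [NonUnitalCStarAlgebra B]
    (hD : T.Zero (G Φ (Dk Z U k)) B) (hD' : T.Zero (G Φ (Dk' Z U k)) B) (i : ZMod 2) :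
    Function.Bijective (T.pull i B (jj Φ Z U k)) := by
  have e1 : IsExtension (J := R Φ (Sk Z U k) (Dk Z U k)) (A := G Φ (Sk Z U k))
      (Q := G Φ (Dk Z U k)) (ri (Sk Z U k) (Dk Z U k)) (res Dk_le) :=
    ext_res (Sk_closed hZ hUo k) (Dk_closed hZ hUo k) Dk_le
  have e2 : IsExtension (J := R Φ (Sk Z U (k + 1)) (Dk' Z U k)) (A := G Φ (Sk Z U (k + 1)))
      (Q := G Φ (Dk' Z U k)) (ri (Sk Z U (k + 1)) (Dk' Z U k)) (res Dk'_le) :=
    ext_res (Sk_closed hZ hUo (k + 1)) (Dk'_closed hZ hUo k) Dk'_le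
  have e3 : Function.Bijective (rho (tau k) (tau_cont k) Sk_step rho_hD :
      R Φ (Sk Z U k) (Dk Z U k) →⋆ₙₐ[ℂ] R Φ (Sk Z U (k + 1)) (Dk' Z U k)) :=
    rho_bij (Sk_closed hZ hUo (k + 1)) (Dk_closed hZ hUo k) (tau k) (tau_cont k) Sk_step rho_hD
      rho_hD2 rho_hex (rho_hun hUo)
  exact pull_exc_bij (J := R Φ (Sk Z U k) (Dk Z U k)) (A := G Φ (Sk Z U k))
    (D := G Φ (Dk Z U k)) (J' := R Φ (Sk Z U (k + 1)) (Dk' Z U k)) (A' := G Φ (Sk Z U (k + 1)))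
    (D' := G Φ (Dk' Z U k)) hT (hN _ (Sk_closed hZ hUo k))
    (hN _ (Sk_closed hZ hUo (k + 1))) _ _ e1 _ _ e2 hD hD' (jj Φ Z U k) _ e3 (fun g => rfl) i

/-- the union step of the tree -/
theorem union_step (hT : IsBiv 𝒩 T) (hN : HN 𝒩 Φ) (hL : HL Φ)
    (hZ : IsClosed Z) (hUo : ∀ i, IsOpen (U i)) {B : Type} [NonUnitalCStarAlgebra B]
    (hj : ∀ k (i : ZMod 2), Function.Bijective (T.pull i B (jj Φ Z U k)))
    (hS : T.Zero (G Φ (Si Z U)) B) : T.Zero (G Φ (Sk Z U 0)) B :=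
  zero_of_union (D := fun k => G Φ (Sk Z U k)) (A := G Φ (Si Z U)) hT
    (hN _ (Si_closed hZ hUo)) (fun k => hN _ (Sk_closed hZ hUo k)) (jj Φ Z U) (uu Φ Z U)
    (isUnion hL hZ hUo) hj hS

theorem uct_Si (hT : IsBiv 𝒩 T) (hN : HN 𝒩 Φ) (hF : HF Φ) (hUx : ∀ x, T.Uct (F x))
    (hZ : IsClosed Z) (hUo : ∀ i, IsOpen (U i))
    (hUs : ∀ x ∈ Z, ∀ y ∈ Z, x ≠ y → ∃ k, x ∈ U k ∧ y ∉ closure (U k)) :
    T.Uct (G Φ (Si Z U)) := by
  refine uct_fib hT hN hF _ (Si_closed hZ hUo) fun ξ => ?_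
  refine uct_small hT hN hUx _ ((Si_closed hZ hUo).inter
    (isClosed_eq continuous_fst continuous_const)) ?_
  rintro ⟨η, x⟩ ⟨h1, h2⟩ ⟨η', x'⟩ ⟨h1', h2'⟩
  have e1 : η = ξ := h2
  have e2 : η' = ξ := h2'
  subst e1
  subst e2
  rw [Si_one hUs h1 h1']

theorem Sk_zero : Sk Z U 0 = Pt (fun _ => false) Z := by
  ext ⟨ξ, x⟩
  constructor
  · rintro ⟨h1, -, h3⟩
    exact ⟨funext fun i => h3 i (Nat.zero_le i), h1⟩
  · rintro ⟨h1, h2⟩
    exact ⟨h2, fun i hi => absurd hi (Nat.not_lt_zero i), fun i _ => congrFun h1 i⟩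

/-- the step of the induction -/
theorem step [CompactSpace X] [T2Space X] [SecondCountableTopology X] (hT : IsBiv 𝒩 T)
    (hN : HN 𝒩 Φ) (hL : HL Φ) (hF : HF Φ) (hUx : ∀ x, T.Uct (F x)) (Y : Set X)
    (hY : IsClosed Y)
    (hloc : ∀ x ∈ Y, ∀ V ∈ 𝓝 x, ∃ U : Set X, IsOpen U ∧ x ∈ U ∧ U ⊆ V ∧
      PP T Φ (Y ∩ frontier U)) : PP T Φ Y := by
  intro Z hZY hZ
  obtain ⟨U, hUo, hUP, hUs⟩ := exists_cuts X (PP T Φ) (PP_empty hT hN) Y hY hloc
  have hSi : T.Uct (G Φ (Si Z U)) := uct_Si hT hN hF hUx hZ hUo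
    (fun x hx y hy => hUs x (hZY hx) y (hZY hy))
  have hD : ∀ k, T.Uct (G Φ (Dk Z U k)) := fun k =>
    uct_over hT hN hF (hUP k) _ (Dk_closed hZ hUo k) fun z hz => ⟨hZY hz.1.1, hz.2⟩
  have hD' : ∀ k, T.Uct (G Φ (Dk' Z U k)) := fun k =>
    uct_over hT hN hF (hUP k) _ (Dk'_closed hZ hUo k) fun z hz => ⟨hZY hz.1.1, hz.2⟩
  refine uct_set_eq (Sk_zero (Z := Z) (U := U)) fun B _ hB hK => ?_
  exact union_step hT hN hL hZ hUo (fun k i => exc_step hT hN hZ hUo k (hD k B hB hK)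
    (hD' k B hB hK) i) (hSi B hB hK)

/-- **The tree.** -/
theorem tree [CompactSpace X] [T2Space X] [SecondCountableTopology X] (hT : IsBiv 𝒩 T)
    (hX : CountableDim X) (hA : 𝒩 A) (hN : HN 𝒩 Φ) (hL : HL Φ) (hF : HF Φ)
    (hUx : ∀ x, T.Uct (F x)) : T.Uct A := by
  have h := topo X hX (PP T Φ) (PP_empty hT hN) fun Y hY hloc =>
    step hT hN hL hF hUx Y hY hloc
  have h1 := h univ subset_rfl isClosed_univ
  exact (uct_bij hT hA (hN _ (Pt_closed isClosed_univ)) (inc _ Φ)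
    (inc_bij (fun _ => false) (by ext z; simp [Pt]))).2 h1

end Tree

end Pool.Agent.Helper82.FU
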